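import Pool.Agent.U623.HS.Main

/-! # The sums with weights of period two are combinations of alternating multiple zeta values -/

set_option autoImplicit false

open Filter Topology

namespace Pool.Agent.U623.HS

open Pool.Agent.H447R2.MZ Pool.Agent.U623.HF

/-- the operator on the truncated sums -/
noncomputable def Op (x : LW) : (ℕ → ℝ) →ₗ[ℚ] (ℕ → ℝ) where
  toFun f N := ∑ n ∈ Finset.range N, x.2 (n + 1) * (((n + 1 : ℕ) : ℝ) ^ x.1)⁻¹ * f n
  map_add' f g := by
    funext N
    simp only [Pi.add_apply]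
    rw [← Finset.sum_add_distrib]
    exact Finset.sum_congr rfl fun n _ => by ring
  map_smul' r f := by
    funext N
    simp only [Pi.smul_apply, RingHom.id_apply, Rat.smul_def]
    rw [Finset.mul_sum]
    exact Finset.sum_congr rfl fun n _ => by ring

lemma Op_tr (x : LW) (s : List LW) : Op x (tr s) = tr (x :: s) := by
  funext N
  rw [tr_cons]
  rfl

/-- the truncated sums of the signed words with given exponents -/
def STr (e : List ℕ) : Set (ℕ → ℝ) := {f | ∃ v : List L, ex v = e ∧ f = tr (v.map cv)}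

lemma tr_mem (l : List LW) (hl : ∀ x ∈ l, ∃ α β : ℚ, ∀ n, x.2 n = α + β * (-1) ^ n) :
    tr l ∈ Submodule.span ℚ (STr (exw l)) := by
  induction l with
  | nil =>
    refine Submodule.subset_span ⟨[], rfl, rfl⟩
  | cons x s ih =>
    have h1 := ih (fun y hy => hl y (by simp [hy]))
    obtain ⟨α, β, hαβ⟩ := hl x (by simp)
    have hz : ∀ z : ℤˣ, ∀ f ∈ Submodule.span ℚ (STr (exw s)),
        Op (cv (x.1, z)) f ∈ Submodule.span ℚ (STr (exw (x :: s))) := by
      intro z f hf
      have h2 : Submodule.span ℚ (STr (exw s)) ≤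
          (Submodule.span ℚ (STr (exw (x :: s)))).comap (Op (cv (x.1, z))) := by
        rw [Submodule.span_le]
        rintro g ⟨v, hv, rfl⟩
        refine Submodule.subset_span ⟨(x.1, z) :: v, ?_, ?_⟩
        · rw [ex_cons, hv]
          rfl
        · rw [Op_tr]
          rfl
      exact h2 hf
    have h3 : tr (x :: s) = α • Op (cv (x.1, 1)) (tr s) + β • Op (cv (x.1, -1)) (tr s) := by
      funext N
      rw [tr_cons]
      simp only [Pi.add_apply, Pi.smul_apply, Rat.smul_def, Op, LinearMap.coe_mk, AddHom.coe_mk]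
      rw [Finset.mul_sum, Finset.mul_sum, ← Finset.sum_add_distrib]
      refine Finset.sum_congr rfl fun n _ => ?_
      rw [hαβ]
      simp only [cv, sg]
      push_cast
      rw [one_pow]
      ring
    rw [h3]
    exact Submodule.add_mem _ (Submodule.smul_mem _ _ (hz 1 _ h1)) (Submodule.smul_mem _ _ (hz (-1) _ h1))

lemma tendsto_Sm (l : List LW) (hb : ∀ y ∈ l, ∀ n, |y.2 n| ≤ 1) (h : Adm (exw l)) :
    Tendsto (tr l) atTop (𝓝 (Sm l)) := by
  cases l with
  | nil =>
    have : tr [] = fun _ => (1 : ℝ) := by funext N; rw [tr_nil]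
    rw [this, Sm]
    exact tendsto_const_nhds
  | cons x s =>
    have h1 := (base_hs x s hb h).tendsto_sum_nat
    have h2 : tr (x :: s) = fun N => ∑ m ∈ Finset.range N,
        x.2 (m + 1) * (((m + 1 : ℕ) : ℝ) ^ x.1)⁻¹ * tr s m := by
      funext N
      rw [tr_cons]
    rw [h2]
    exact h1

/-- the values of the signed words with given exponents -/
def SVal (e : List ℕ) : Set ℝ := {x | ∃ v : List L, ex v = e ∧ Tendsto (tr (v.map cv)) atTop (𝓝 x)}

lemma exw_cv (v : List L) : exw (v.map cv) = ex v := by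
  rw [exw, ex, List.map_map]
  rfl

theorem Sm_mem (l : List LW) (hb : ∀ y ∈ l, ∀ n, |y.2 n| ≤ 1) (h : Adm (exw l))
    (hl : ∀ x ∈ l, ∃ α β : ℚ, ∀ n, x.2 n = α + β * (-1) ^ n) :
    Sm l ∈ Submodule.span ℚ (SVal (exw l)) := by
  have h1 := tr_mem l hl
  have key : ∀ f ∈ Submodule.span ℚ (STr (exw l)), ∃ x ∈ Submodule.span ℚ (SVal (exw l)),
      Tendsto f atTop (𝓝 x) := by
    intro f hf
    induction hf using Submodule.span_induction with
    | mem f hf =>
      obtain ⟨v, hv, rfl⟩ := hf
      have h2 := tendsto_Sm (v.map cv) (fun y hy n => by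
        rw [List.mem_map] at hy
        obtain ⟨x, -, rfl⟩ := hy
        exact cv_abs x n) (by rw [exw_cv, hv]; exact h)
      exact ⟨_, Submodule.subset_span ⟨v, hv, h2⟩, h2⟩
    | zero => exact ⟨0, Submodule.zero_mem _, tendsto_const_nhds⟩
    | add f g _ _ hf hg =>
      obtain ⟨x, hx, hfx⟩ := hf
      obtain ⟨y, hy, hgy⟩ := hg
      exact ⟨x + y, Submodule.add_mem _ hx hy, hfx.add hgy⟩
    | smul r f _ hf =>
      obtain ⟨x, hx, hfx⟩ := hf
      refine ⟨r • x, Submodule.smul_mem _ _ hx, ?_⟩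
      have h3 := hfx.const_mul (r : ℝ)
      rw [Rat.smul_def]
      refine h3.congr fun n => ?_
      rw [Pi.smul_apply, Rat.smul_def]
  obtain ⟨x, hx, hfx⟩ := key _ h1
  rwa [tendsto_nhds_unique (tendsto_Sm l hb h) hfx]

end Pool.Agent.U623.HS
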