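import Pool.Agent.U623.HF.Tail

/-! # Tails of alternating multiple zeta values -/

set_option autoImplicit false

open Filter Topology

namespace Pool.Agent.U623.HS

open Pool.Agent.H447R2.MZ Pool.Agent.U623.HF

/-- the real number `1` or `-1` -/
def sg (z : ℤˣ) : ℝ := ((z : ℤ) : ℝ)

lemma sg_cases (z : ℤˣ) : sg z = 1 ∨ sg z = -1 := by
  rcases Int.units_eq_one_or z with rfl | rfl
  · left; simp [sg]
  · right; simp [sg]

lemma sg_sq (z : ℤˣ) : sg z * sg z = 1 := by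
  rcases sg_cases z with h | h <;> rw [h] <;> norm_num

lemma sg_abs (z : ℤˣ) : |sg z| = 1 := by
  rcases sg_cases z with h | h <;> rw [h] <;> norm_num

lemma sg_ne (z : ℤˣ) : sg z ≠ 0 := by
  rcases sg_cases z with h | h <;> rw [h] <;> norm_num

lemma sg_mul (z w : ℤˣ) : sg (z * w) = sg z * sg w := by
  unfold sg
  push_cast
  ring

lemma sg_one : sg 1 = 1 := by simp [sg]

lemma sg_inj {z w : ℤˣ} (h : sg z = sg w) : z = w := by
  unfold sg at h
  have h1 : (z : ℤ) = (w : ℤ) := by exact_mod_cast h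
  exact Units.ext h1

lemma sg_pow_abs (z : ℤˣ) (n : ℕ) : |sg z ^ n| = 1 := by
  rw [abs_pow, sg_abs, one_pow]

/-- the letters: the exponent and the sign -/
abbrev L := ℕ × ℤˣ

/-- the product of the signs -/
def pr (w : List L) : ℤˣ := (w.map Prod.snd).prod

lemma pr_nil : pr [] = 1 := rfl
lemma pr_cons (x : L) (w : List L) : pr (x :: w) = x.2 * pr w := by simp [pr]

/-- the exponents -/
def ex (w : List L) : List ℕ := w.map Prod.fst

lemma ex_cons (x : L) (w : List L) : ex (x :: w) = x.1 :: ex w := rfl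
lemma ex_nil : ex [] = [] := rfl

/-- the tail sum over `n_1 > … > n_t > m` of the signed word whose first letter belongs to the smallest
variable -/
noncomputable def TS : List L → ℕ → ℝ
  | [] => fun _ => 1
  | x :: w => tl (fun n => sg x.2 ^ n * ((n : ℝ) ^ x.1)⁻¹ * TS w n)

lemma TS_nil (m : ℕ) : TS [] m = 1 := by rw [TS]
lemma TS_cons (x : L) (w : List L) :
    TS (x :: w) = tl (fun n => sg x.2 ^ n * ((n : ℝ) ^ x.1)⁻¹ * TS w n) := by rw [TS]

/-- absolutely convergent, the first letter belongs to the smallest variable -/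
def RS (w : List L) : Prop := RA (ex w)

lemma rs_tail {x : L} {w : List L} (h : RS (x :: w)) : RS w := ra_tail (a := x.1) h
lemma rs_tail' {w : List L} (h : RS w) : RS w.tail := by
  cases w with
  | nil => exact h
  | cons a w => exact rs_tail h
lemma rs_one {x : L} {w : List L} (h : RS (x :: w)) : 1 ≤ x.1 := ra_one (a := x.1) h
lemma rs_two {x : L} (h : RS [x]) : 2 ≤ x.1 := ra_two (a := x.1) h

lemma abs_TS : ∀ w : List L, RS w → ∀ m, |TS w m| ≤ T (ex w) m := by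
  intro w
  induction w with
  | nil => intro _ m; rw [TS_nil, ex_nil, T_nil, abs_one]
  | cons x w ih =>
    intro h m
    have hs := f_summable (a := x.1) (w := ex w) h m
    have hb : ∀ n, |sg x.2 ^ (n + (m + 1)) * (((n + (m + 1) : ℕ) : ℝ) ^ x.1)⁻¹ * TS w (n + (m + 1))| ≤
        (((n + (m + 1) : ℕ) : ℝ) ^ x.1)⁻¹ * T (ex w) (n + (m + 1)) := by
      intro n
      rw [abs_mul, abs_mul, sg_pow_abs, one_mul, abs_of_nonneg (by positivity :
        (0 : ℝ) ≤ (((n + (m + 1) : ℕ) : ℝ) ^ x.1)⁻¹)]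
      exact mul_le_mul_of_nonneg_left (ih (rs_tail h) _) (by positivity)
    rw [TS_cons, ex_cons, T_cons]
    unfold tl
    have h1 : ‖∑' n, sg x.2 ^ (n + (m + 1)) * (((n + (m + 1) : ℕ) : ℝ) ^ x.1)⁻¹ * TS w (n + (m + 1))‖ ≤
        ∑' n, (((n + (m + 1) : ℕ) : ℝ) ^ x.1)⁻¹ * T (ex w) (n + (m + 1)) :=
      tsum_of_norm_bounded hs.hasSum hb
    exact h1

lemma summableS {x : L} {w : List L} (h : RS (x :: w)) (m : ℕ) :
    Summable (fun n => sg x.2 ^ (n + (m + 1)) * (((n + (m + 1) : ℕ) : ℝ) ^ x.1)⁻¹ *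
      TS w (n + (m + 1))) := by
  refine Summable.of_norm_bounded (f_summable (a := x.1) (w := ex w) h m) fun n => ?_
  rw [Real.norm_eq_abs, abs_mul, abs_mul, sg_pow_abs, one_mul, abs_of_nonneg (by positivity :
        (0 : ℝ) ≤ (((n + (m + 1) : ℕ) : ℝ) ^ x.1)⁻¹)]
  exact mul_le_mul_of_nonneg_left (abs_TS w (rs_tail h) _) (by positivity)

lemma TS_succ {x : L} {w : List L} (h : RS (x :: w)) (m : ℕ) :
    TS (x :: w) m = sg x.2 ^ (m + 1) * (((m + 1 : ℕ) : ℝ) ^ x.1)⁻¹ * TS w (m + 1) +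
      TS (x :: w) (m + 1) := by
  rw [TS_cons]
  exact tl_succ (f := fun n => sg x.2 ^ n * ((n : ℝ) ^ x.1)⁻¹ * TS w n) (summableS h m)

/-- the tail without its oscillation -/
noncomputable def FS (w : List L) (m : ℕ) : ℝ := sg (pr w) ^ m * TS w m

lemma FS_nil (m : ℕ) : FS [] m = 1 := by rw [FS, TS_nil, pr_nil, sg_one, one_pow, one_mul]

lemma sg_pow_sq (z : ℤˣ) (n : ℕ) : sg z ^ n * sg z ^ n = 1 := by
  rw [← mul_pow, sg_sq, one_pow]

lemma FS_succ {x : L} {w : List L} (h : RS (x :: w)) (m : ℕ) :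
    FS (x :: w) m = sg (pr (x :: w)) * ((((m + 1 : ℕ) : ℝ) ^ x.1)⁻¹ * FS w (m + 1) +
      FS (x :: w) (m + 1)) := by
  unfold FS
  rw [TS_succ h m, pr_cons, sg_mul]
  have h1 : (sg x.2 * sg (pr w)) ^ m * sg x.2 ^ (m + 1) =
      sg x.2 * sg (pr w) * sg (pr w) ^ (m + 1) := by
    have e1 := sg_pow_sq x.2 m
    have e2 := sg_sq (pr w)
    rw [mul_pow, pow_succ, pow_succ]
    linear_combination (sg (pr w) ^ m * sg x.2) * e1 - (sg x.2 * sg (pr w) ^ m) * e2
  have h2 : (sg x.2 * sg (pr w)) ^ m =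
      sg x.2 * sg (pr w) * (sg x.2 * sg (pr w)) ^ (m + 1) := by
    have e1 := sg_sq x.2
    have e2 := sg_sq (pr w)
    rw [pow_succ]
    linear_combination (-(sg x.2 * sg (pr w)) ^ m * sg (pr w) * sg (pr w)) * e1 -
      (sg x.2 * sg (pr w)) ^ m * e2
  rw [mul_add, mul_add]
  congr 1
  · linear_combination ((((m + 1 : ℕ) : ℝ) ^ x.1)⁻¹ * TS w (m + 1)) * h1
  · linear_combination (TS (x :: w) (m + 1)) * h2

end Pool.Agent.U623.HS
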