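import Pool.Agent.U623.HF.Exp
import Pool.Agent.U623.HS.Tail

/-! # Asymptotic expansions of the tails of alternating sums -/

set_option autoImplicit false

open Filter Topology Polynomial Asymptotics

namespace Pool.Agent.U623.HS

open Pool.Agent.H447R2.MZ Pool.Agent.U623.HF

lemma solveN {K : ℕ} (hK : 2 ≤ K) : ∀ d j : ℕ, 1 ≤ j → K ≤ j + d → ∀ p : ℚ[X], X ^ j ∣ p →
    ∃ q : ℚ[X], X ∣ q ∧ X ^ K ∣ - q.comp (gK K) - q - p := by
  intro d
  induction d with
  | zero =>
    intro j _ hj p hp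
    refine ⟨0, dvd_zero _, ?_⟩
    simp only [zero_comp, neg_zero, sub_zero, zero_sub, dvd_neg]
    exact (pow_dvd_pow X (by omega)).trans hp
  | succ d ih =>
    intro j hj1 hj p hp
    obtain ⟨p1, rfl⟩ := hp
    obtain ⟨r, rfl⟩ := Nat.exists_eq_add_of_le' hj1
    obtain ⟨h, hh⟩ := gK_pow K (r + 1) hK
    set c : ℚ := p1.coeff 0 with hc
    obtain ⟨p2, hp2⟩ : ∃ p2 : ℚ[X], p1 = C c + X * p2 := by
      have h1 : (X : ℚ[X]) ∣ p1 - C c := by
        rw [X_dvd_iff]
        simp [hc]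
      obtain ⟨p2, h2⟩ := h1
      exact ⟨p2, by rw [← h2]; ring⟩
    set b : ℚ := - c / 2 with hb
    have hbc : C b + C b = (- C c : ℚ[X]) := by
      rw [← C_add, hb, ← C_neg]
      congr 1
      ring
    obtain ⟨q, hq1, hq2⟩ := ih (r + 2) (by omega) (by omega)
      (X ^ (r + 1) * p1 + ((C b * X ^ (r + 1)).comp (gK K) + C b * X ^ (r + 1))) (by
        refine ⟨p2 + C b * C ((r + 1 : ℕ) : ℚ) + C b * X * h, ?_⟩
        rw [mul_comp, C_comp, pow_comp, X_comp, hh, hp2]
        linear_combination (X ^ (r + 1)) * hbc)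
    refine ⟨q + C b * X ^ (r + 1), ?_, ?_⟩
    · exact dvd_add hq1 (Dvd.dvd.mul_left (dvd_pow_self X (by omega)) _)
    · rw [add_comp]
      convert hq2 using 1
      ring

lemma solveS (z : ℤˣ) {K : ℕ} (hK : 2 ≤ K) (p : ℚ[X]) (hp : X ^ 2 ∣ p) :
    ∃ q : ℚ[X], X ∣ q ∧ X ^ K ∣ C (((z : ℤ) : ℚ)) * q.comp (gK K) - q - p := by
  rcases Int.units_eq_one_or z with rfl | rfl
  · obtain ⟨q, h1, h2⟩ := solve hK K 2 le_rfl (by omega) p hp
    refine ⟨q, h1, ?_⟩
    simpa using h2
  · obtain ⟨q, h1, h2⟩ := solveN hK K 2 (by omega) (by omega) p hp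
    refine ⟨q, h1, ?_⟩
    simpa using h2

lemma sgq (z : ℤˣ) : ((((z : ℤ) : ℚ)) : ℝ) = sg z := by
  unfold sg
  push_cast
  rfl

lemma tailS {g : ℕ → ℝ} (h : Ex 2 g) (z : ℤˣ)
    (hs : ∀ m, Summable (fun n => sg z ^ (n + (m + 1)) * g (n + (m + 1)))) :
    Ex 1 (fun m => sg z ^ m * tl (fun n => sg z ^ n * g n) m) := by
  intro J
  obtain ⟨p, h1, h2⟩ := h (J + 2)
  obtain ⟨q, h3, h4⟩ := solveS z (K := J + 2) (by omega) p h1
  refine ⟨q, by rwa [pow_one], ?_⟩
  set Q : ℕ → ℝ := fun n => aeval ((n : ℝ)⁻¹) q with hQ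
  obtain ⟨e, he⟩ : ∃ e : ℕ → ℝ, e = fun n => sg z ^ n * (sg z * Q (n - 1) - Q n - g n) := ⟨_, rfl⟩
  have hen : ∀ n, e n = sg z ^ n * (sg z * Q (n - 1) - Q n - g n) := fun n => by rw [he]
  have heO : e =O[atTop] (fun m : ℕ => ((m : ℝ) ^ (J + 2))⁻¹) := by
    have e0 : (fun n : ℕ => sg z * Q (n - 1) - Q n - g n) =O[atTop]
        (fun m : ℕ => ((m : ℝ) ^ (J + 2))⁻¹) := by
      have e1 : (fun n : ℕ => sg z * Q (n - 1) - Q n - g n) = fun n : ℕ =>
          sg z * (aeval ((((n - 1 : ℕ) : ℝ))⁻¹) q - aeval ((n : ℝ)⁻¹) (q.comp (gK (J + 2)))) +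
          (aeval ((n : ℝ)⁻¹) (C (((z : ℤ) : ℚ)) * q.comp (gK (J + 2)) - q - p) -
            (g n - aeval ((n : ℝ)⁻¹) p)) := by
        funext n
        have e2 : aeval ((n : ℝ)⁻¹) (C (((z : ℤ) : ℚ)) * q.comp (gK (J + 2)) - q - p) =
            sg z * aeval ((n : ℝ)⁻¹) (q.comp (gK (J + 2))) - aeval ((n : ℝ)⁻¹) q -
              aeval ((n : ℝ)⁻¹) p := by
          rw [map_sub, map_sub, map_mul, aeval_C, ← sgq]
          rfl
        rw [e2]
        simp only [hQ]
        ring
      rw [e1]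
      refine IsBigO.add ?_ ((aeval_O h4).sub h2)
      refine IsBigO.const_mul_left ?_ _
      refine (prev_O q (J + 2)).trans ?_
      refine IsBigO.of_bound 1 ?_
      filter_upwards [eventually_ge_atTop 1] with m hm
      have hm1 : (1 : ℝ) ≤ m := by exact_mod_cast hm
      rw [one_mul, Real.norm_of_nonneg (by positivity), Real.norm_of_nonneg (by positivity)]
      exact inv_anti₀ (by positivity) (pow_le_pow_right₀ hm1 (by omega))
    refine IsBigO.trans ?_ e0
    refine IsBigO.of_bound 1 (Eventually.of_forall fun n => ?_)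
    rw [hen, norm_mul, Real.norm_eq_abs, sg_pow_abs]
  have heS : Summable e := by
    refine summable_of_isBigO_nat (g := fun n : ℕ => ((n : ℝ) ^ 2)⁻¹)
      (Real.summable_nat_pow_inv.2 (by norm_num)) (heO.trans ?_)
    refine IsBigO.of_bound 1 ?_
    filter_upwards [eventually_ge_atTop 1] with m hm
    have hm1 : (1 : ℝ) ≤ m := by exact_mod_cast hm
    rw [one_mul, Real.norm_of_nonneg (by positivity), Real.norm_of_nonneg (by positivity)]
    exact inv_anti₀ (by positivity) (pow_le_pow_right₀ hm1 (by omega))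
  have key : ∀ m, tl (fun n => sg z ^ n * g n) m + tl e m = sg z ^ m * Q m := by
    intro m
    have s1 : Summable (fun n => e (n + (m + 1))) := (summable_nat_add_iff (m + 1)).2 heS
    have s2 := (s1.add (hs m)).hasSum.tendsto_sum_nat
    have s3 : ∀ k, ∑ i ∈ Finset.range k, (e (i + (m + 1)) + sg z ^ (i + (m + 1)) * g (i + (m + 1))) =
        sg z ^ m * Q m - sg z ^ (k + m) * Q (k + m) := by
      intro k
      induction k with
      | zero => simp
      | succ k ih =>
        rw [Finset.sum_range_succ, ih, hen]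
        have e2 : k + (m + 1) - 1 = k + m := by omega
        have e3 : k + 1 + m = k + (m + 1) := by omega
        have e4 : k + (m + 1) = (k + m) + 1 := by omega
        rw [e2, e3, e4, pow_succ]
        linear_combination (sg z ^ (k + m) * Q (k + m)) * sg_sq z
    simp only [s3] at s2
    have s4 : Tendsto (fun k => sg z ^ m * Q m - sg z ^ (k + m) * Q (k + m)) atTop
        (𝓝 (sg z ^ m * Q m - 0)) := by
      refine tendsto_const_nhds.sub ?_
      have t1 : Tendsto (fun k => Q (k + m)) atTop (𝓝 0) :=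
        (aeval_tendsto h3).comp (tendsto_add_atTop_nat m)
      refine squeeze_zero_norm (fun k => ?_) (tendsto_zero_iff_norm_tendsto_zero.1 t1)
      rw [norm_mul, Real.norm_eq_abs, sg_pow_abs, one_mul]
    have s5 := tendsto_nhds_unique s2 s4
    rw [s1.tsum_add (hs m)] at s5
    unfold tl
    linarith
  have e4 : (fun m : ℕ => sg z ^ m * tl (fun n => sg z ^ n * g n) m - aeval ((m : ℝ)⁻¹) q) =
      fun m => - (sg z ^ m * tl e m) := by
    funext m
    have k1 := key m
    have k2 := sg_pow_sq z m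
    have k3 : sg z ^ m * tl (fun n => sg z ^ n * g n) m - Q m = - (sg z ^ m * tl e m) := by
      linear_combination sg z ^ m * k1 + Q m * k2
    exact k3
  rw [e4]
  have e5 : (fun m : ℕ => - (sg z ^ m * tl e m)) =O[atTop] (tl e) := by
    refine IsBigO.of_bound 1 (Eventually.of_forall fun n => ?_)
    rw [norm_neg, norm_mul, Real.norm_eq_abs, sg_pow_abs]
  refine e5.trans ((tl_O heO).trans ?_)
  refine IsBigO.of_bound 1 ?_
  filter_upwards [eventually_ge_atTop 1] with m hm
  have hm1 : (1 : ℝ) ≤ m := by exact_mod_cast hm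
  rw [one_mul, Real.norm_of_nonneg (by positivity), Real.norm_of_nonneg (by positivity)]
  exact inv_anti₀ (by positivity) (pow_le_pow_right₀ hm1 (by omega))

lemma TS_fn (x : L) (w : List L) : (fun n : ℕ => sg x.2 ^ n * ((n : ℝ) ^ x.1)⁻¹ * TS w n) =
    fun n : ℕ => sg (pr (x :: w)) ^ n * (((n : ℝ) ^ x.1)⁻¹ * FS w n) := by
  funext n
  rw [pr_cons, sg_mul, FS, mul_pow]
  linear_combination (- sg x.2 ^ n * ((n : ℝ) ^ x.1)⁻¹ * TS w n) * sg_pow_sq (pr w) n

/-- the tails have asymptotic expansions -/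
theorem FS_Ex : ∀ w : List L, RS w → Ex 0 (FS w) ∧ (w ≠ [] → Ex 1 (FS w)) := by
  intro w
  induction w with
  | nil =>
    intro _
    refine ⟨fun J => ⟨1, by simp, ?_⟩, fun h => absurd rfl h⟩
    have : (fun m : ℕ => FS [] m - aeval ((m : ℝ)⁻¹) (1 : ℚ[X])) = fun _ => (0 : ℝ) := by
      funext m
      rw [FS_nil]
      simp
    rw [this]
    exact isBigO_zero _ _
  | cons a w ih =>
    intro hw
    obtain ⟨i0, i1⟩ := ih (rs_tail hw)
    have h2 : Ex 2 (fun n => ((n : ℝ) ^ a.1)⁻¹ * FS w n) := by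
      by_cases h : w = []
      · subst h
        have := rs_two hw
        exact (i0.mul a.1).mono (by omega)
      · have := rs_one hw
        exact ((i1 h).mul a.1).mono (by omega)
    have h3 : Ex 1 (FS (a :: w)) := by
      have h4 : FS (a :: w) = fun m => sg (pr (a :: w)) ^ m *
          tl (fun n => sg (pr (a :: w)) ^ n * (((n : ℝ) ^ a.1)⁻¹ * FS w n)) m := by
        funext m
        rw [FS, TS_cons, TS_fn]
      rw [h4]
      refine tailS h2 _ fun m => ?_
      have h5 := summableS hw m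
      have h6 := TS_fn a w
      have h7 : (fun n : ℕ => sg (pr (a :: w)) ^ (n + (m + 1)) *
          ((((n + (m + 1) : ℕ) : ℝ) ^ a.1)⁻¹ * FS w (n + (m + 1)))) =
          fun n : ℕ => sg a.2 ^ (n + (m + 1)) * (((n + (m + 1) : ℕ) : ℝ) ^ a.1)⁻¹ *
            TS w (n + (m + 1)) := by
        funext n
        exact (congrFun h6 (n + (m + 1))).symm
      rw [h7]
      exact h5
    exact ⟨h3.mono (by omega), fun _ => h3⟩

end Pool.Agent.U623.HS
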