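import Pool.Agent.U623.HF.Pole

/-! # Rational functions `f` with `z f (x - 1) - f x` a polynomial in `1 / x`, `z ≠ 0` -/

set_option autoImplicit false

open Polynomial

namespace Pool.Agent.U623.HS

open Pool.Agent.U623.HF

/-- the equation `x ^ M (z f (x - 1) - f x) + D x = 0` for `f = A / B` -/
def Eqn (z : ℝ) (M : ℕ) (A B D : ℝ[X]) : Prop :=
  X ^ M * (C z * (B * sh A) - sh B * A) + D * B * sh B = 0

lemma sh_C (c : ℝ) : sh (C c) = C c := by simp [sh]
lemma us_C (c : ℝ) : us (C c) = C c := by simp [us]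

lemma reg_up {z : ℝ} {M : ℕ} {A B D : ℝ[X]} (hB : B ≠ 0) (h : Eqn z M A B D) {α : ℝ} (hα : α ≠ 0)
    (hr : Reg A B (α - 1)) : Reg A B α := by
  obtain ⟨A', B', h1, h2⟩ := hr
  have h3 : sh A * sh B' = sh A' * sh B := by rw [← sh_mul, ← sh_mul, h2]
  refine ⟨X ^ M * (C z * sh A') + D * sh B', X ^ M * sh B', ?_, ?_⟩
  · rw [eval_mul, eval_pow, eval_X, sh_eval]
    exact mul_ne_zero (pow_ne_zero _ hα) h1
  · have h4 : sh B ≠ 0 := sh_ne hB
    apply mul_left_cancel₀ h4
    unfold Eqn at h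
    linear_combination (-sh B') * h + X ^ M * C z * B * h3

lemma reg_down {z : ℝ} (hz : z ≠ 0) {M : ℕ} {A B D : ℝ[X]} (hB : B ≠ 0) (h : Eqn z M A B D) {α : ℝ}
    (hα : α ≠ 0) (hr : Reg A B α) : Reg A B (α - 1) := by
  obtain ⟨A', B', h1, h2⟩ := hr
  have hzz : (C z : ℝ[X]) * C z⁻¹ = 1 := by
    rw [← C_mul, mul_inv_cancel₀ hz, C_1]
  have h3 : X ^ M * B' * sh A = C z⁻¹ * (X ^ M * A' - D * B') * sh B := by
    apply mul_left_cancel₀ hB
    unfold Eqn at h
    linear_combination C z⁻¹ * B' * h + C z⁻¹ * X ^ M * sh B * h2 - X ^ M * B' * B * sh A * hzz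
  refine ⟨us (C z⁻¹ * (X ^ M * A' - D * B')), us (X ^ M * B'), ?_, ?_⟩
  · rw [us_eval, eval_mul, eval_pow, eval_X]
    have : α - 1 + 1 = α := by ring
    rw [this]
    exact mul_ne_zero (pow_ne_zero _ hα) h1
  · have h4 := congrArg us h3
    rw [us_mul (X ^ M * B'), us_mul (C z⁻¹ * (X ^ M * A' - D * B')), us_sh, us_sh] at h4
    rw [mul_comm A]
    exact h4

/-- **The pole lemma.** -/
theorem pole {z : ℝ} (hz : z ≠ 0) {M : ℕ} {A B D : ℝ[X]} (hB : B ≠ 0) (h : Eqn z M A B D)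
    (hD : D = 0 ∨ D.natDegree < M) : D = 0 := by
  rcases hD with hD | hD
  · exact hD
  obtain ⟨K, hK⟩ := root_bound B hB
  -- regular at the natural numbers
  have hpos : ∀ j : ℕ, Reg A B (((K : ℤ) - j : ℤ) : ℝ) ∨ (K : ℤ) - j < 0 := by
    intro j
    induction j with
    | zero =>
      left
      apply reg_of_ne
      apply hK
      simp
    | succ j ih =>
      rcases lt_or_ge ((K : ℤ) - ((j + 1 : ℕ) : ℤ)) 0 with h1 | h1
      · right; exact h1
      · left
        push_cast at h1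
        rcases ih with ih | ih
        · have h2 : (((K : ℤ) - ((j + 1 : ℕ) : ℤ) : ℤ) : ℝ) = (((K : ℤ) - (j : ℤ) : ℤ) : ℝ) - 1 := by
            push_cast; ring
          rw [h2]
          refine reg_down hz hB h ?_ ih
          have : (K : ℤ) - j ≠ 0 := by omega
          exact_mod_cast this
        · exfalso; omega
  have hneg : ∀ j : ℕ, Reg A B ((-(K : ℤ) - 1 + j : ℤ) : ℝ) ∨ 0 ≤ -(K : ℤ) - 1 + j := by
    intro j
    induction j with
    | zero =>
      left
      apply reg_of_ne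
      apply hK
      omega
    | succ j ih =>
      rcases le_or_gt 0 (-(K : ℤ) - 1 + ((j + 1 : ℕ) : ℤ)) with h1 | h1
      · right; exact h1
      · left
        push_cast at h1
        rcases ih with ih | ih
        · have h2 : ((-(K : ℤ) - 1 + (j : ℤ) : ℤ) : ℝ) =
              ((-(K : ℤ) - 1 + ((j + 1 : ℕ) : ℤ) : ℤ) : ℝ) - 1 := by
            push_cast; ring
          rw [h2] at ih
          refine reg_up hB h ?_ ih
          have : -(K : ℤ) - 1 + ((j + 1 : ℕ) : ℤ) ≠ 0 := by push_cast; omega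
          exact_mod_cast this
        · exfalso; omega
  have h0 : Reg A B 0 := by
    rcases hpos K with h1 | h1
    · simpa using h1
    · omega
  have h1 : Reg A B (-1) := by
    rcases hneg K with h1 | h1
    · have e : ((-(K : ℤ) - 1 + (K : ℤ) : ℤ) : ℝ) = -1 := by push_cast; ring
      rwa [e] at h1
    · omega
  obtain ⟨A1, B1, e1, f1⟩ := h0
  obtain ⟨A2, B2, e2, f2⟩ := h1
  have f3 : sh A * sh B2 = sh A2 * sh B := by rw [← sh_mul, ← sh_mul, f2]
  have e3 : (sh B2).eval 0 ≠ 0 := by rw [sh_eval]; simpa using e2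
  have key : D * (B1 * sh B2) = X ^ M * (sh B2 * A1 - C z * (B1 * sh A2)) := by
    apply mul_left_cancel₀ (mul_ne_zero hB (sh_ne hB))
    unfold Eqn at h
    linear_combination (B1 * sh B2) * h - X ^ M * C z * B * B1 * f3 + X ^ M * sh B * sh B2 * f1
  have hdvd : X ^ M ∣ D * (B1 * sh B2) := ⟨_, key⟩
  have hcop : IsCoprime (X ^ M : ℝ[X]) (B1 * sh B2) := by
    apply IsCoprime.pow_left
    rw [(irreducible_X (R := ℝ)).coprime_iff_not_dvd, X_dvd_iff, coeff_zero_eq_eval_zero, eval_mul]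
    exact mul_ne_zero e1 e3
  have h4 := hcop.dvd_of_dvd_mul_right hdvd
  by_contra hne
  have h5 := natDegree_le_of_dvd h4 hne
  rw [natDegree_X_pow] at h5
  omega

end Pool.Agent.U623.HS
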