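import Pool.Agent.U623.HF.Indep
import Pool.Agent.U623.HS.Pole
import Pool.Agent.U623.HS.Tail

/-! # The tails of alternating sums are linearly independent over the rational functions -/

set_option autoImplicit false

open Filter Topology Polynomial Asymptotics

namespace Pool.Agent.U623.HS

open Pool.Agent.H447R2.MZ Pool.Agent.U623.HF

lemma antiperiodic {P R : ℝ[X]} (hR : R ≠ 0) (h : R * sh P = - (sh R * P)) : P = 0 := by
  obtain ⟨K, hK⟩ := root_bound R hR
  have hK' : ∀ j : ℕ, R.eval ((K : ℝ) + j) ≠ 0 := by
    intro j
    have := hK (K + j) (by omega)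
    exact_mod_cast this
  have hK0 : R.eval (K : ℝ) ≠ 0 := by simpa using hK' 0
  have hx : ∀ j : ℕ, R.eval ((K : ℝ) + ((j + 1 : ℕ) : ℝ)) * P.eval ((K : ℝ) + j) =
      - (R.eval ((K : ℝ) + j) * P.eval ((K : ℝ) + ((j + 1 : ℕ) : ℝ))) := by
    intro j
    have h1 := congrArg (fun Q => Q.eval ((K : ℝ) + ((j + 1 : ℕ) : ℝ))) h
    simp only [eval_mul, eval_neg, sh_eval] at h1
    have e : (K : ℝ) + ((j + 1 : ℕ) : ℝ) - 1 = (K : ℝ) + j := by push_cast; ring
    rw [e] at h1
    exact h1
  have key : ∀ j : ℕ, P.eval ((K : ℝ) + ((2 * j : ℕ) : ℝ)) =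
      P.eval (K : ℝ) / R.eval (K : ℝ) * R.eval ((K : ℝ) + ((2 * j : ℕ) : ℝ)) := by
    intro j
    induction j with
    | zero =>
      simp only [mul_zero, Nat.cast_zero, add_zero]
      field_simp
    | succ j ih =>
      have h1 := hx (2 * j)
      have h2 := hx (2 * j + 1)
      have e : 2 * (j + 1) = 2 * j + 1 + 1 := by ring
      rw [e]
      have n1 := hK' (2 * j)
      have n2 := hK' (2 * j + 1)
      rw [ih] at h1
      apply mul_left_cancel₀ n2
      have h3 : R.eval ((K : ℝ) + ((2 * j : ℕ) : ℝ)) *
          (R.eval ((K : ℝ) + ((2 * j + 1 : ℕ) : ℝ)) * P.eval ((K : ℝ) + ((2 * j + 1 + 1 : ℕ) : ℝ))) =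
          R.eval ((K : ℝ) + ((2 * j : ℕ) : ℝ)) * (R.eval ((K : ℝ) + ((2 * j + 1 : ℕ) : ℝ)) *
          (P.eval (K : ℝ) / R.eval (K : ℝ) * R.eval ((K : ℝ) + ((2 * j + 1 + 1 : ℕ) : ℝ)))) := by
        linear_combination R.eval ((K : ℝ) + ((2 * j : ℕ) : ℝ)) * h2 -
          R.eval ((K : ℝ) + ((2 * j + 1 + 1 : ℕ) : ℝ)) * h1
      exact mul_left_cancel₀ n1 h3
  have hP : P = C (P.eval (K : ℝ) / R.eval (K : ℝ)) * R := by
    refine eq_of_infinite_eval_eq _ _ ?_
    refine Set.infinite_of_injective_forall_mem (f := fun j : ℕ => (K : ℝ) + ((2 * j : ℕ) : ℝ)) ?_ ?_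
    · intro i j hij
      simp only [add_right_inj, Nat.cast_inj] at hij
      omega
    · intro j
      simp only [Set.mem_ofPred_eq, eval_mul, eval_C]
      exact key j
  obtain ⟨c, hc⟩ : ∃ c : ℝ, c = P.eval (K : ℝ) / R.eval (K : ℝ) := ⟨_, rfl⟩
  rw [← hc] at hP
  rw [hP, sh_C_mul] at h
  have h5 : C (2 * c) * (R * sh R) = 0 := by
    rw [C_mul]
    have : (C (2 : ℝ) : ℝ[X]) = 2 := map_ofNat C 2
    rw [this]
    linear_combination h
  have h6 : R * sh R ≠ 0 := mul_ne_zero hR (sh_ne hR)
  have h7 := (mul_eq_zero.1 h5).resolve_right h6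
  rw [C_eq_zero] at h7
  have h8 : c = 0 := by linarith
  rw [hP, h8]
  simp

lemma periodicS {P R : ℝ[X]} {z z0 : ℤˣ} (hR : R ≠ 0)
    (h : C (sg z) * (R * sh P) = C (sg z0) * (sh R * P)) :
    ∃ c : ℝ, P = C c * R ∧ (z ≠ z0 → c = 0) := by
  have hz : ∀ z : ℤˣ, (C (sg z) : ℝ[X]) * C (sg z) = 1 := fun z => by
    rw [← C_mul, sg_sq, C_1]
  by_cases hzz : z = z0
  · subst hzz
    have h1 : R * sh P = sh R * P := by
      have : C (sg z) * (C (sg z) * (R * sh P)) = C (sg z) * (C (sg z) * (sh R * P)) := by rw [h]
      linear_combination this - (R * sh P - sh R * P) * hz z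
    obtain ⟨c, hc⟩ := periodic hR h1
    exact ⟨c, hc, fun h => absurd rfl h⟩
  · have h2 : sg z0 = - sg z := by
      rcases sg_cases z with h1 | h1 <;> rcases sg_cases z0 with h2 | h2
      · exact absurd (sg_inj (h1.trans h2.symm)) hzz
      · rw [h1, h2]
      · rw [h1, h2]; norm_num
      · exact absurd (sg_inj (h1.trans h2.symm)) hzz
    refine ⟨0, ?_, fun _ => rfl⟩
    rw [C_0, zero_mul]
    apply antiperiodic hR
    rw [h2, C_neg] at h
    linear_combination C (sg z) * h - (R * sh P + sh R * P) * hz z

/-- the value of a combination -/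
noncomputable def rel (W : Finset (List L)) (P : List L → ℝ[X]) (n : ℕ) : ℝ :=
  ∑ w ∈ W, (P w).eval (n : ℝ) * FS w n

/-- the coefficients after the elimination of the word `w0` -/
noncomputable def nextP (M : ℕ) (W : Finset (List L)) (P : List L → ℝ[X]) (w0 v : List L) : ℝ[X] :=
  X ^ M * (C (sg (pr v)) * (P w0 * sh (P v)) - C (sg (pr w0)) * (sh (P w0) * P v)) +
    ∑ w ∈ W, if w ≠ [] ∧ w.tail = v then
      X ^ (M - w.headI.1) * (C (sg (pr w)) * (P w0 * sh (P w))) else 0

lemma step {M : ℕ} {W : Finset (List L)} {P : List L → ℝ[X]} (w0 : List L) (hP : ∀ v, v ∉ W → P v = 0)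
    (hRA : ∀ w ∈ W, RS w) (hM : ∀ w ∈ W, ∀ a ∈ w, a.1 ≤ M) {n : ℕ} (hn : 1 ≤ n) :
    rel (W ∪ W.image List.tail) (nextP M W P w0) n =
      (n : ℝ) ^ M * ((P w0).eval (n : ℝ) * rel W P (n - 1) -
        sg (pr w0) * (sh (P w0)).eval (n : ℝ) * rel W P n) := by
  classical
  have hn0 : (n : ℝ) ≠ 0 := by exact_mod_cast (by omega : n ≠ 0)
  have hn1 : (((n - 1 : ℕ) : ℝ)) = (n : ℝ) - 1 := by
    rw [Nat.cast_sub hn]
    simp
  -- split
  have e1 : rel (W ∪ W.image List.tail) (nextP M W P w0) n =
      (∑ v ∈ W, (X ^ M * (C (sg (pr v)) * (P w0 * sh (P v)) -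
        C (sg (pr w0)) * (sh (P w0) * P v))).eval (n : ℝ) * FS v n) +
      ∑ w ∈ W, if w ≠ [] then
        (X ^ (M - w.headI.1) * (C (sg (pr w)) * (P w0 * sh (P w)))).eval (n : ℝ) * FS w.tail n
        else 0 := by
    unfold rel nextP
    simp only [eval_add, add_mul, Finset.sum_add_distrib]
    congr 1
    · symm
      apply Finset.sum_subset Finset.subset_union_left
      intro v _ hv
      rw [hP v hv, sh_zero]
      simp
    · simp only [eval_finsetSum, Finset.sum_mul]
      rw [Finset.sum_comm]
      refine Finset.sum_congr rfl fun w hw => ?_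
      by_cases hw0 : w = []
      · simp [hw0]
      · rw [if_pos hw0]
        rw [Finset.sum_eq_single w.tail]
        · rw [if_pos ⟨hw0, rfl⟩]
        · intro v _ hv
          rw [if_neg (fun h => hv h.2.symm)]
          simp
        · intro h
          exact absurd (Finset.mem_union_right _ (Finset.mem_image_of_mem _ hw)) h
  rw [e1, ← Finset.sum_add_distrib]
  unfold rel
  rw [Finset.mul_sum, Finset.mul_sum, ← Finset.sum_sub_distrib, Finset.mul_sum]
  refine Finset.sum_congr rfl fun w hw => ?_
  cases w with
  | nil =>
    simp only [ne_eq, not_true_eq_false, if_false, add_zero, FS_nil, mul_one, eval_mul, eval_pow,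
      eval_X, eval_sub, sh_eval, hn1, eval_C, pr_nil, sg_one, one_mul]
    ring
  | cons a v =>
    have ha : a.1 ≤ M := hM _ hw a (by simp)
    have hT := FS_succ (hRA _ hw) (n - 1)
    rw [Nat.sub_add_cancel hn] at hT
    have hpow : (n : ℝ) ^ (M - a.1) = (n : ℝ) ^ M * ((n : ℝ) ^ a.1)⁻¹ := by
      rw [pow_sub₀ _ hn0 ha]
    simp only [ne_eq, reduceCtorEq, not_false_eq_true, if_true, List.tail_cons, List.headI_cons,
      eval_mul, eval_pow, eval_X, eval_sub, sh_eval, hn1, hT, hpow, eval_C]
    ring

/-- **Independence**, the induction. -/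
theorem indep_aux (d : ℕ) : ∀ n : ℕ, ∀ (W : Finset (List L)) (P : List L → ℝ[X]),
    (∀ v, v ∉ W → P v = 0) → (∀ w ∈ W, RS w) → (∀ w, P w ≠ 0 → w.length ≤ d) →
    (∀ S : Finset (List L), (∀ w ∈ S, w ∈ W ∧ P w ≠ 0 ∧ w.length = d) → S.card ≤ n) →
    Negl (rel W P) → ∀ w, P w = 0 := by
  classical
  induction d with
  | zero =>
    intro n W P hP _ hd _ hN w
    by_contra hw
    have hw0 : w = [] := List.length_eq_zero_iff.1 (Nat.le_zero.1 (hd w hw))
    have hW : ([] : List L) ∈ W := by
      by_contra hc
      exact hw (by rw [hw0]; exact hP _ hc)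
    apply hw
    rw [hw0]
    apply negl_poly
    refine negl_congr hN (Eventually.of_forall fun m => ?_)
    unfold rel
    rw [Finset.sum_eq_single ([] : List L)]
    · rw [FS_nil, mul_one]
    · intro v _ hv
      have : P v = 0 := by
        by_contra hc
        exact hv (List.length_eq_zero_iff.1 (Nat.le_zero.1 (hd v hc)))
      rw [this]
      simp
    · intro h
      exact absurd hW h
  | succ d ihd =>
    intro n
    induction n with
    | zero =>
      intro W P hP hRA hd hS hN
      refine ihd W.card W P hP hRA (fun w hw => ?_) (fun S hS' => Finset.card_le_card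
        fun w hw => (hS' w hw).1) hN
      have hwW : w ∈ W := by
        by_contra hc
        exact hw (hP _ hc)
      have h1 := hd w hw
      by_contra hlt
      have h2 := hS {w} (fun v hv => by
        rw [Finset.mem_singleton] at hv
        subst hv
        exact ⟨hwW, hw, by omega⟩)
      simp at h2
    | succ n ihn =>
      intro W P hP hRA hd hS hN
      by_cases hex : ∃ w0, P w0 ≠ 0 ∧ w0.length = d + 1
      swap
      · push Not at hex
        refine ihd W.card W P hP hRA (fun w hw => ?_) (fun S hS' => Finset.card_le_card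
          fun w hw => (hS' w hw).1) hN
        have h1 := hd w hw
        have h2 := hex w hw
        omega
      exfalso
      obtain ⟨w0, hw0, hl0⟩ := hex
      have hw0W : w0 ∈ W := by
        by_contra hc
        exact hw0 (hP _ hc)
      obtain ⟨M, hM⟩ : ∃ M : ℕ, ∀ w ∈ W, ∀ a ∈ w, a.1 ≤ M := by
        refine ⟨W.sup (fun w => (ex w).sum), fun w hw a ha => ?_⟩
        have h1 : a.1 ∈ ex w := List.mem_map.2 ⟨a, ha, rfl⟩
        exact (List.single_le_sum (fun _ _ => Nat.zero_le _) a.1 h1).trans
          (Finset.le_sup (f := fun w => (ex w).sum) hw)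
      -- the second part of the new coefficients
      have hsec : ∀ v : List L, d + 1 ≤ v.length →
          (∑ w ∈ W, if w ≠ [] ∧ w.tail = v then
            X ^ (M - w.headI.1) * (C (sg (pr w)) * (P w0 * sh (P w))) else 0)
            = (0 : ℝ[X]) := by
        intro v hv
        refine Finset.sum_eq_zero fun w _ => ?_
        split_ifs with h
        · have : P w = 0 := by
            by_contra hc
            have h1 := hd w hc
            have h2 : w.tail.length = w.length - 1 := List.length_tail
            have h3 : 0 < w.length := List.length_pos_iff.2 h.1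
            rw [h.2] at h2
            omega
          rw [this, sh_zero, mul_zero, mul_zero, mul_zero]
        · rfl
      have hQ : ∀ v, nextP M W P w0 v = 0 := by
        refine ihn (W ∪ W.image List.tail) (nextP M W P w0) ?_ ?_ ?_ ?_ ?_
        · intro v hv
          rw [Finset.mem_union, not_or] at hv
          unfold nextP
          rw [hP v hv.1, sh_zero, mul_zero, mul_zero, mul_zero, mul_zero, sub_zero, mul_zero, zero_add]
          refine Finset.sum_eq_zero fun w hw => ?_
          rw [if_neg]
          rintro ⟨-, h⟩
          exact hv.2 (h ▸ Finset.mem_image_of_mem _ hw)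
        · intro w hw
          rw [Finset.mem_union, Finset.mem_image] at hw
          rcases hw with hw | ⟨v, hv, rfl⟩
          · exact hRA w hw
          · exact rs_tail' (hRA v hv)
        · intro v hv
          by_contra hlt
          push Not at hlt
          apply hv
          unfold nextP
          rw [hsec v (by omega)]
          have : P v = 0 := by
            by_contra hc
            have := hd v hc
            omega
          rw [this, sh_zero]
          ring
        · intro S hS'
          have hw0S : w0 ∉ S := by
            intro h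
            apply (hS' w0 h).2.1
            unfold nextP
            rw [hsec w0 (by omega)]
            ring
          have h1 := hS (insert w0 S) (by
            intro w hw
            rw [Finset.mem_insert] at hw
            rcases hw with rfl | hw
            · exact ⟨hw0W, hw0, hl0⟩
            · obtain ⟨-, h2, h3⟩ := hS' w hw
              have h4 : P w ≠ 0 := by
                intro hc
                apply h2
                unfold nextP
                rw [hsec w (by omega), hc, sh_zero]
                ring
              refine ⟨?_, h4, h3⟩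
              by_contra hc
              exact h4 (hP _ hc))
          rw [Finset.card_insert_of_notMem hw0S] at h1
          omega
        · have h1 : Negl (fun m => ((X : ℝ[X]) ^ M).eval (m : ℝ) *
              ((P w0).eval (m : ℝ) * rel W P (m - 1) -
              (C (sg (pr w0)) * sh (P w0)).eval (m : ℝ) * rel W P m)) :=
            negl_poly_mul _ (negl_sub (negl_poly_mul _ (negl_prev hN)) (negl_poly_mul _ hN))
          refine negl_congr h1 ?_
          filter_upwards [eventually_ge_atTop 1] with m hm
          rw [step w0 hP hRA hM hm]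
          simp
      -- all top coefficients are multiples of `P w0`
      have hc : ∀ w, w.length = d + 1 → ∃ c : ℝ, P w = C c * P w0 ∧ (pr w ≠ pr w0 → c = 0) := by
        intro w hw
        apply periodicS hw0
        have h1 := hQ w
        unfold nextP at h1
        rw [hsec w (by omega), add_zero] at h1
        have h2 : (X : ℝ[X]) ^ M ≠ 0 := pow_ne_zero _ X_ne_zero
        have h3 := (mul_eq_zero.1 h1).resolve_left h2
        exact sub_eq_zero.1 h3
      choose! c hc using hc
      obtain ⟨a0, v0, rfl⟩ : ∃ a0 v0, w0 = a0 :: v0 := by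
        cases w0 with
        | nil => simp at hl0
        | cons a v => exact ⟨a, v, rfl⟩
      have hv0 : v0.length = d := by simpa using hl0
      have hz : ∀ z : ℤˣ, (C (sg z) : ℝ[X]) * C (sg z) = 1 := fun z => by
        rw [← C_mul, sg_sq, C_1]
      set D : ℝ[X] := ∑ w ∈ W, if w ≠ [] ∧ w.tail = v0 then C (c w) * X ^ (M - w.headI.1) else 0
        with hD
      have heqn : Eqn (sg (pr (a0 :: v0)) * sg (pr v0)) M (P v0) (P (a0 :: v0)) D := by
        have h1 := hQ v0
        unfold nextP at h1
        unfold Eqn
        have h1' : C (sg (pr (a0 :: v0))) * (X ^ M * (C (sg (pr v0)) * (P (a0 :: v0) * sh (P v0)) -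
            C (sg (pr (a0 :: v0))) * (sh (P (a0 :: v0)) * P v0))) +
            C (sg (pr (a0 :: v0))) * (∑ w ∈ W, if w ≠ [] ∧ w.tail = v0 then
              X ^ (M - w.headI.1) * (C (sg (pr w)) * (P (a0 :: v0) * sh (P w))) else 0) = 0 := by
          rw [← mul_add, h1, mul_zero]
        have h2 : C (sg (pr (a0 :: v0))) * (∑ w ∈ W, if w ≠ [] ∧ w.tail = v0 then
              X ^ (M - w.headI.1) * (C (sg (pr w)) * (P (a0 :: v0) * sh (P w))) else 0) =
            D * P (a0 :: v0) * sh (P (a0 :: v0)) := by
          rw [hD, Finset.sum_mul, Finset.sum_mul, Finset.mul_sum]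
          refine Finset.sum_congr rfl fun w hw => ?_
          split_ifs with h
          · have hlw : w.length = d + 1 := by
              have h2 : w.tail.length = w.length - 1 := List.length_tail
              have h3 : 0 < w.length := List.length_pos_iff.2 h.1
              rw [h.2] at h2
              omega
            have h4 : sh (P w) = C (c w) * sh (P (a0 :: v0)) := by
              rw [(hc w hlw).1, sh_C_mul]
            rw [h4]
            by_cases hp : pr w = pr (a0 :: v0)
            · rw [hp]
              linear_combination (X ^ (M - w.headI.1) * P (a0 :: v0) * C (c w) *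
                sh (P (a0 :: v0))) * hz (pr (a0 :: v0))
            · rw [(hc w hlw).2 hp, C_0]
              ring
          · rw [zero_mul, zero_mul, mul_zero]
        rw [h2] at h1'
        rw [C_mul]
        linear_combination h1' + (X ^ M * (sh (P (a0 :: v0)) * P v0)) * hz (pr (a0 :: v0))
      have hDdeg : D = 0 ∨ D.natDegree < M := by
        by_cases hD0 : D = 0
        · left; exact hD0
        · right
          have hM1 : 1 ≤ M := (rs_one (hRA _ hw0W)).trans (hM _ hw0W a0 (by simp))
          have h1 : D.natDegree ≤ M - 1 := by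
            rw [hD]
            refine natDegree_sum_le_of_forall_le _ _ fun w hw => ?_
            split_ifs with h
            · refine (natDegree_C_mul_X_pow_le _ _).trans ?_
              have h2 : 1 ≤ w.headI.1 := by
                cases w with
                | nil => exact absurd rfl h.1
                | cons b v => exact rs_one (hRA _ hw)
              omega
            · simp
          omega
      have hD0 := pole (mul_ne_zero (sg_ne _) (sg_ne _)) hw0 heqn hDdeg
      have h1 := congrArg (fun q : ℝ[X] => q.coeff (M - a0.1)) hD0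
      simp only [hD, finsetSum_coeff, coeff_zero] at h1
      rw [Finset.sum_eq_single (a0 :: v0)] at h1
      · simp only [ne_eq, reduceCtorEq, not_false_eq_true, List.tail_cons, and_self, if_true,
          List.headI_cons, coeff_C_mul, coeff_X_pow, mul_one] at h1
        have h2 := (hc (a0 :: v0) hl0).1
        rw [h1] at h2
        apply hw0
        rw [h2]
        simp
      · intro w hw hne
        split_ifs with h
        · by_cases hz0 : c w = 0
          · rw [hz0]; simp
          rw [coeff_C_mul, coeff_X_pow, if_neg, mul_zero]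
          intro heq
          apply hne
          cases w with
          | nil => exact absurd rfl h.1
          | cons b v =>
            simp only [List.tail_cons, List.headI_cons] at h heq
            have hb := hM _ hw b (by simp)
            have ha := hM _ hw0W a0 (by simp)
            have hlw : (b :: v).length = d + 1 := by rw [h.2, List.length_cons, hv0]
            have hp : pr (b :: v) = pr (a0 :: v0) := by
              by_contra hp
              exact hz0 ((hc _ hlw).2 hp)
            rw [pr_cons, pr_cons, h.2] at hp
            have hb2 : b.2 = a0.2 := mul_right_cancel hp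
            rw [h.2]
            congr 1
            exact Prod.ext (by omega) hb2
        · simp
      · intro h
        exact absurd hw0W h

/-- **Independence** over the constants. -/
theorem indep (W : Finset (List L)) (hW : ∀ w ∈ W, RS w) (c : List L → ℝ)
    (h : Negl (fun m => ∑ w ∈ W, c w * FS w m)) : ∀ w ∈ W, c w = 0 := by
  classical
  intro w hw
  have h1 := indep_aux (W.sup List.length) W.card W (fun v => if v ∈ W then C (c v) else 0)
    (fun v hv => if_neg hv) hW (fun v hv => by
      have hvW : v ∈ W := by
        by_contra hc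
        exact hv (if_neg hc)
      exact Finset.le_sup (f := List.length) hvW)
    (fun S hS => Finset.card_le_card fun v hv => (hS v hv).1)
    (negl_congr h (Eventually.of_forall fun m => by
      unfold rel
      refine Finset.sum_congr rfl fun v hv => ?_
      simp only [if_pos hv, eval_C])) w
  rw [if_pos hw] at h1
  simpa using h1

end Pool.Agent.U623.HS
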