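import Pool.Agent.U623.HS.Abs
import Pool.Agent.U623.HS.Indep
import Pool.Agent.U623.HS.Exp

/-! # Alternating multiple zeta values with a common last part -/

set_option autoImplicit false

open Filter Topology

namespace Pool.Agent.U623.HS

open Pool.Agent.H447R2.MZ Pool.Agent.U623.HF

/-- the abstract final step: sums of the `F w (m + 1)` with nonnegative weights -/
theorem finalA {ι : Type} (F : ι → ℕ → ℝ) (W : Finset ι) (hEx : ∀ w ∈ W, Ex 0 (F w))
    (hInd : ∀ c : ι → ℝ, Negl (fun m => ∑ w ∈ W, c w * F w m) → ∀ w ∈ W, c w = 0) :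
    ∃ (q : ℕ → ι → ℚ) (K : ℝ) (J : ℕ), 0 < K ∧ ∀ c : ι → ℝ, (∃ w ∈ W, c w ≠ 0) →
      ∃ j < J, ∑ w ∈ W, c w * (q j w : ℝ) ≠ 0 ∧
      ∀ H : ℝ, (∀ w ∈ W, |c w| ≤ H) → ∀ (n : ℕ) (g : ℕ → ℝ) (V : ι → ℝ) (R : ℝ),
        (∀ m, 0 ≤ g m) → (∀ m < n, g m = 0) →
        (∀ w ∈ W, HasSum (fun m => F w (m + 1) * g m) (V w)) →
        HasSum (fun m => ((((m + 1 : ℕ) : ℝ)) ^ (J + 1))⁻¹ * g m) R →
        K * H ≤ |∑ w ∈ W, c w * (q j w : ℝ)| * (n + 1) →
        |∑ w ∈ W, c w * (q j w : ℝ)| / 2 * R ≤ |∑ w ∈ W, c w * V w| := by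
  classical
  obtain ⟨q, K0, J, m0, hK0, h⟩ := lowerA F W hEx hInd
  obtain ⟨S, hS⟩ : ∃ S : ℝ, S = ∑ j ∈ Finset.range J, ∑ u ∈ W, |((q j u : ℚ) : ℝ)| := ⟨_, rfl⟩
  have hS0 : 0 ≤ S := by
    rw [hS]
    exact Finset.sum_nonneg fun _ _ => Finset.sum_nonneg fun _ _ => abs_nonneg _
  refine ⟨q, K0 + S * (m0 + 1), J, by positivity, fun c hc => ?_⟩
  obtain ⟨j, hjJ, hj0, ε, hε, hb⟩ := h c hc
  refine ⟨j, hjJ, hj0, fun H hH n g V R hg0 hgn hV hR hlen => ?_⟩
  obtain ⟨A, hA⟩ : ∃ A : ℝ, A = ∑ u ∈ W, c u * ((q j u : ℚ) : ℝ) := ⟨_, rfl⟩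
  rw [← hA] at hj0 hb hlen ⊢
  have hA0 : 0 < |A| := abs_pos.2 hj0
  have hH0 : 0 < H := by
    obtain ⟨u, hu, hcu⟩ := hc
    exact (abs_pos.2 hcu).trans_le (hH u hu)
  have hAS : |A| ≤ H * S := by
    calc |A| ≤ ∑ u ∈ W, |c u * ((q j u : ℚ) : ℝ)| := by
          rw [hA]; exact Finset.abs_sum_le_sum_abs _ _
      _ ≤ ∑ u ∈ W, H * |((q j u : ℚ) : ℝ)| := by
          refine Finset.sum_le_sum fun u hu => ?_
          rw [abs_mul]
          exact mul_le_mul_of_nonneg_right (hH u hu) (abs_nonneg _)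
      _ = H * ∑ u ∈ W, |((q j u : ℚ) : ℝ)| := by rw [Finset.mul_sum]
      _ ≤ H * S := by
          refine mul_le_mul_of_nonneg_left ?_ hH0.le
          rw [hS]
          exact Finset.single_le_sum (f := fun j => ∑ u ∈ W, |((q j u : ℚ) : ℝ)|)
            (fun _ _ => Finset.sum_nonneg fun _ _ => abs_nonneg _) (Finset.mem_range.2 hjJ)
  have hS1 : 0 < S := by
    by_contra hcon
    have : S = 0 := le_antisymm (not_lt.1 hcon) hS0
    rw [this, mul_zero] at hAS
    linarith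
  have hL0 : (0 : ℝ) < (n : ℝ) + 1 := by positivity
  have hlen1 : (m0 : ℝ) + 1 ≤ (n : ℝ) + 1 := by
    have h1 : S * (m0 + 1) * H ≤ (H * S) * (n + 1) := by
      calc S * (m0 + 1) * H ≤ (K0 + S * (m0 + 1)) * H := by nlinarith
        _ ≤ |A| * (n + 1) := hlen
        _ ≤ _ := mul_le_mul_of_nonneg_right hAS hL0.le
    have h2 : 0 < H * S := by positivity
    have h3 : (H * S) * ((m0 : ℝ) + 1) ≤ (H * S) * ((n : ℝ) + 1) := by linarith
    exact le_of_mul_le_mul_left h3 h2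
  have hlen2 : K0 * H ≤ |A| * (n + 1) := by
    refine le_trans ?_ hlen
    nlinarith [mul_nonneg hS0 hH0.le, m0.cast_nonneg (α := ℝ), mul_nonneg (mul_nonneg hS0 hH0.le)
      (m0.cast_nonneg (α := ℝ))]
  have hb' := hb H hH
  have hS' : HasSum (fun m => ε * ((∑ u ∈ W, c u * F u (m + 1)) * g m)) (ε * ∑ u ∈ W, c u * V u) := by
    refine HasSum.mul_left ε ?_
    have h3 := hasSum_sum fun u hu => (hV u hu).mul_left (c u)
    have h4 : (fun m => ∑ u ∈ W, c u * (F u (m + 1) * g m)) =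
        fun m => (∑ u ∈ W, c u * F u (m + 1)) * g m := by
      funext m
      rw [Finset.sum_mul]
      exact Finset.sum_congr rfl fun u _ => by ring
    rw [h4] at h3
    exact h3
  have hR' : HasSum (fun m => |A| / 2 * (((((m + 1 : ℕ) : ℝ)) ^ (J + 1))⁻¹ * g m)) (|A| / 2 * R) :=
    hR.mul_left _
  have hfin : |A| / 2 * R ≤ ε * ∑ u ∈ W, c u * V u := by
    refine hasSum_le (fun m => ?_) hR' hS'
    rcases lt_or_ge m n with hm | hm
    · rw [hgn m hm]
      simp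
    · have hm1 : (n : ℝ) ≤ m := by exact_mod_cast hm
      have h1 := hb' (m + 1) (by
        have : (m0 : ℝ) ≤ ((m + 1 : ℕ) : ℝ) := by push_cast; linarith
        exact_mod_cast this) (by
        push_cast
        have h5 : (n : ℝ) + 1 ≤ (m : ℝ) + 1 := by linarith
        exact hlen2.trans (mul_le_mul_of_nonneg_left h5 hA0.le))
      have hm2 : (1 : ℝ) ≤ ((m + 1 : ℕ) : ℝ) := by
        push_cast; have : (0 : ℝ) ≤ m := m.cast_nonneg; linarith
      calc |A| / 2 * (((((m + 1 : ℕ) : ℝ)) ^ (J + 1))⁻¹ * g m)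
          ≤ |A| / 2 * ((((m + 1 : ℕ) : ℝ) ^ J)⁻¹ * g m) := by
            have h6 : (((m + 1 : ℕ) : ℝ) ^ (J + 1))⁻¹ ≤ (((m + 1 : ℕ) : ℝ) ^ J)⁻¹ :=
              inv_anti₀ (by positivity) (pow_le_pow_right₀ hm2 (by omega))
            exact mul_le_mul_of_nonneg_left (mul_le_mul_of_nonneg_right h6 (hg0 m)) (by positivity)
        _ = (|A| / 2 * (((m + 1 : ℕ) : ℝ) ^ J)⁻¹) * g m := by ring
        _ ≤ (ε * ∑ u ∈ W, c u * F u (m + 1)) * g m :=
            mul_le_mul_of_nonneg_right h1 (hg0 m)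
        _ = _ := by ring
  refine hfin.trans ?_
  rcases hε with rfl | rfl
  · rw [one_mul]; exact le_abs_self _
  · rw [neg_one_mul]; exact neg_le_abs _

/-! ### words with weights -/

/-- a letter: exponent and weight function -/
abbrev LW := ℕ × (ℕ → ℝ)

/-- the truncated sum over `N ≥ n_1 > n_2 > … ≥ 1` of `∏ b_i(n_i) n_i ^ (-a_i)` -/
noncomputable def tr : List LW → ℕ → ℝ
  | [], _ => 1
  | x :: s, N => ∑ n ∈ Finset.range N, x.2 (n + 1) * (((n + 1 : ℕ) : ℝ) ^ x.1)⁻¹ * tr s n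

lemma tr_nil (N : ℕ) : tr [] N = 1 := by rw [tr]
lemma tr_cons (x : LW) (s : List LW) (N : ℕ) : tr (x :: s) N =
    ∑ n ∈ Finset.range N, x.2 (n + 1) * (((n + 1 : ℕ) : ℝ) ^ x.1)⁻¹ * tr s n := by rw [tr]

/-- the sum over `n_1 > n_2 > … ≥ 1` of `∏ b_i(n_i) n_i ^ (-a_i)` -/
noncomputable def Sm : List LW → ℝ
  | [] => 1
  | x :: s => ∑' n : ℕ, x.2 (n + 1) * (((n + 1 : ℕ) : ℝ) ^ x.1)⁻¹ * tr s n

lemma Sm_cons (x : LW) (s : List LW) :
    Sm (x :: s) = ∑' n : ℕ, x.2 (n + 1) * (((n + 1 : ℕ) : ℝ) ^ x.1)⁻¹ * tr s n := by rw [Sm]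

/-- the exponents -/
def exw (s : List LW) : List ℕ := s.map Prod.fst

lemma abs_tr : ∀ s : List LW, (∀ x ∈ s, ∀ n, |x.2 n| ≤ 1) → ∀ N, |tr s N| ≤ H (exw s) N := by
  intro s
  induction s with
  | nil => intro _ N; rw [tr_nil, exw, List.map_nil, H_nil, abs_one]
  | cons x s ih =>
    intro hb N
    rw [tr_cons, exw, List.map_cons, H_cons]
    refine (Finset.abs_sum_le_sum_abs _ _).trans (Finset.sum_le_sum fun n _ => ?_)
    have h1 := ih (fun y hy => hb y (by simp [hy])) n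
    have h2 := hb x (by simp) (n + 1)
    have h3 : (0 : ℝ) ≤ (((n + 1 : ℕ) : ℝ) ^ x.1)⁻¹ := by positivity
    rw [abs_mul, abs_mul, abs_of_nonneg h3]
    calc |x.2 (n + 1)| * (((n + 1 : ℕ) : ℝ) ^ x.1)⁻¹ * |tr s n|
        ≤ 1 * (((n + 1 : ℕ) : ℝ) ^ x.1)⁻¹ * H (exw s) n := by
          refine mul_le_mul (mul_le_mul_of_nonneg_right h2 h3) h1 (abs_nonneg _) (by positivity)
      _ = _ := by rw [one_mul]; rfl

lemma tr_nonneg : ∀ s : List LW, (∀ x ∈ s, ∀ n, 0 ≤ x.2 n) → ∀ N, 0 ≤ tr s N := by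
  intro s
  induction s with
  | nil => intro _ N; rw [tr_nil]; exact zero_le_one
  | cons x s ih =>
    intro hb N
    rw [tr_cons]
    exact Finset.sum_nonneg fun n _ => mul_nonneg (mul_nonneg (hb x (by simp) _) (by positivity))
      (ih (fun y hy => hb y (by simp [hy])) n)

lemma tr_zero : ∀ s : List LW, ∀ m, m < s.length → tr s m = 0 := by
  intro s
  induction s with
  | nil => intro m hm; simp at hm
  | cons a s ih =>
    intro m hm
    rw [tr_cons]
    refine Finset.sum_eq_zero fun n hn => ?_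
    rw [ih n (by rw [List.length_cons] at hm; have := Finset.mem_range.1 hn; omega), mul_zero]

lemma tr_pos : ∀ s : List LW, (∀ x ∈ s, ∀ n, 0 ≤ x.2 n) → (∀ x ∈ s, ∀ M, ∃ n, M ≤ n ∧ 0 < x.2 n) →
    ∃ M, ∀ m, M ≤ m → 0 < tr s m := by
  intro s
  induction s with
  | nil => intro _ _; exact ⟨0, fun m _ => by rw [tr_nil]; exact one_pos⟩
  | cons x s ih =>
    intro h0 h1
    obtain ⟨M, hM⟩ := ih (fun y hy => h0 y (by simp [hy])) (fun y hy => h1 y (by simp [hy]))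
    obtain ⟨n, hn, hn0⟩ := h1 x (by simp) (M + 1)
    refine ⟨n, fun m hm => ?_⟩
    rw [tr_cons]
    refine Finset.sum_pos' (fun k _ => mul_nonneg (mul_nonneg (h0 x (by simp) _) (by positivity))
      (tr_nonneg s (fun y hy => h0 y (by simp [hy])) k)) ⟨n - 1, Finset.mem_range.2 (by omega), ?_⟩
    have e : n - 1 + 1 = n := by omega
    rw [e]
    have hn1 : (0 : ℝ) < n := by exact_mod_cast (by omega : 0 < n)
    exact mul_pos (mul_pos hn0 (by positivity)) (hM (n - 1) (by omega))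

lemma base_hs (x : LW) (s : List LW) (hb : ∀ y ∈ x :: s, ∀ n, |y.2 n| ≤ 1)
    (h : Adm (exw (x :: s))) :
    HasSum (fun m : ℕ => x.2 (m + 1) * (((m + 1 : ℕ) : ℝ) ^ x.1)⁻¹ * tr s m) (Sm (x :: s)) := by
  rw [Sm_cons]
  refine Summable.hasSum ?_
  refine Summable.of_norm_bounded (base_sum x.1 (exw s) h).summable fun m => ?_
  have h1 := abs_tr s (fun y hy => hb y (by simp [hy])) m
  have h2 := hb x (by simp) (m + 1)
  have h3 : (0 : ℝ) ≤ (((m + 1 : ℕ) : ℝ) ^ x.1)⁻¹ := by positivity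
  rw [Real.norm_eq_abs, abs_mul, abs_mul, abs_of_nonneg h3]
  calc |x.2 (m + 1)| * (((m + 1 : ℕ) : ℝ) ^ x.1)⁻¹ * |tr s m|
      ≤ 1 * (((m + 1 : ℕ) : ℝ) ^ x.1)⁻¹ * H (exw s) m := by
        refine mul_le_mul (mul_le_mul_of_nonneg_right h2 h3) h1 (abs_nonneg _) (by positivity)
    _ = _ := by rw [one_mul]

/-- the letter with the weight `z ^ n` -/
noncomputable def cv (x : L) : LW := (x.1, fun n => sg x.2 ^ n)

lemma cv_abs (x : L) (n : ℕ) : |(cv x).2 n| ≤ 1 := by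
  unfold cv
  simp only
  rw [sg_pow_abs]

/-- the multiple sum as a sum over the largest variable of its last part -/
theorem hs_sumS : ∀ (w : List L) (y : LW) (s : List LW), (∀ x ∈ y :: s, ∀ n, |x.2 n| ≤ 1) →
    Adm ((ex w).reverse ++ exw (y :: s)) →
    HasSum (fun m : ℕ => TS w (m + 1) * (y.2 (m + 1) * (((m + 1 : ℕ) : ℝ) ^ y.1)⁻¹ * tr s m))
      (Sm (w.reverse.map cv ++ y :: s)) := by
  intro w
  induction w with
  | nil =>
    intro y s hb h
    simp only [List.reverse_nil, List.map_nil, List.nil_append, ex_nil] at h ⊢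
    simp only [TS_nil, one_mul]
    exact base_hs y s hb h
  | cons x w ih =>
    intro y s hb h
    have hRA : RS (x :: w) := adm_left h
    have e0 : (ex (x :: w)).reverse ++ exw (y :: s) = (ex w).reverse ++ exw (cv x :: y :: s) := by
      simp [ex, exw, cv]
    have e0' : (x :: w).reverse.map cv ++ y :: s = w.reverse.map cv ++ cv x :: (y :: s) := by simp
    rw [e0] at h
    rw [e0']
    have hb' : ∀ u ∈ cv x :: (y :: s), ∀ n, |u.2 n| ≤ 1 := by
      intro u hu n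
      rw [List.mem_cons] at hu
      rcases hu with rfl | hu
      · exact cv_abs x n
      · exact hb u hu n
    have h1 := ih (cv x) (y :: s) hb' h
    obtain ⟨V, hV⟩ : ∃ V : ℝ, V = Sm (w.reverse.map cv ++ cv x :: (y :: s)) := ⟨_, rfl⟩
    rw [← hV] at h1 ⊢
    obtain ⟨f, hf⟩ : ∃ f : ℕ → ℝ, f = fun n =>
      TS w (n + 1) * ((cv x).2 (n + 1) * (((n + 1 : ℕ) : ℝ) ^ (cv x).1)⁻¹) := ⟨_, rfl⟩
    obtain ⟨g, hg⟩ : ∃ g : ℕ → ℝ, g = fun m =>
      y.2 (m + 1) * (((m + 1 : ℕ) : ℝ) ^ y.1)⁻¹ * tr s m := ⟨_, rfl⟩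
    obtain ⟨F, hF⟩ : ∃ F : ℕ × ℕ → ℝ, F = fun p => if p.2 < p.1 then f p.1 * g p.2 else 0 := ⟨_, rfl⟩
    have hgoal : (fun m : ℕ => TS (x :: w) (m + 1) * (y.2 (m + 1) * (((m + 1 : ℕ) : ℝ) ^ y.1)⁻¹ * tr s m)) =
        fun m => TS (x :: w) (m + 1) * g m := by
      funext m
      rw [hg]
    rw [hgoal]
    -- the majorant
    obtain ⟨f0, hf0⟩ : ∃ f0 : ℕ → ℝ, f0 = fun n => T (ex w) (n + 1) * (((n + 1 : ℕ) : ℝ) ^ x.1)⁻¹ :=
      ⟨_, rfl⟩
    obtain ⟨g0, hg0⟩ : ∃ g0 : ℕ → ℝ, g0 = fun m => (((m + 1 : ℕ) : ℝ) ^ y.1)⁻¹ * H (exw s) m :=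
      ⟨_, rfl⟩
    have hff : ∀ n, |f n| ≤ f0 n := by
      intro n
      rw [hf, hf0]
      simp only
      have h3 : (0 : ℝ) ≤ (((n + 1 : ℕ) : ℝ) ^ (cv x).1)⁻¹ := by positivity
      rw [abs_mul, abs_mul, abs_of_nonneg h3]
      have h4 := abs_TS w (rs_tail hRA) (n + 1)
      have h5 : |(cv x).2 (n + 1)| * (((n + 1 : ℕ) : ℝ) ^ (cv x).1)⁻¹ ≤ (((n + 1 : ℕ) : ℝ) ^ x.1)⁻¹ :=
        mul_le_of_le_one_left h3 (cv_abs x _)
      exact mul_le_mul h4 h5 (by positivity) ((abs_nonneg _).trans h4)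
    have hgg : ∀ m, |g m| ≤ g0 m := by
      intro m
      rw [hg, hg0]
      simp only
      have h3 : (0 : ℝ) ≤ (((m + 1 : ℕ) : ℝ) ^ y.1)⁻¹ := by positivity
      rw [abs_mul, abs_mul, abs_of_nonneg h3]
      have h4 := abs_tr s (fun u hu => hb u (by simp [hu])) m
      have h5 : |y.2 (m + 1)| * (((m + 1 : ℕ) : ℝ) ^ y.1)⁻¹ ≤ (((m + 1 : ℕ) : ℝ) ^ y.1)⁻¹ :=
        mul_le_of_le_one_left h3 (hb y (by simp) _)
      exact mul_le_mul h5 h4 (abs_nonneg _) h3
    have hf00 : ∀ n, 0 ≤ f0 n := fun n => (abs_nonneg _).trans (hff n)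
    have hg00 : ∀ n, 0 ≤ g0 n := fun n => (abs_nonneg _).trans (hgg n)
    obtain ⟨F0, hF0⟩ : ∃ F0 : ℕ × ℕ → ℝ, F0 = fun p => if p.2 < p.1 then f0 p.1 * g0 p.2 else 0 :=
      ⟨_, rfl⟩
    have hF00 : ∀ p, 0 ≤ F0 p := by
      intro p
      simp only [hF0]
      split_ifs
      · exact mul_nonneg (hf00 _) (hg00 _)
      · exact le_rfl
    have r0 : ∀ n, HasSum (fun m => F0 (n, m)) (f0 n * H (exw (y :: s)) n) := by
      intro n
      have h2 : f0 n * H (exw (y :: s)) n = ∑ m ∈ Finset.range n, F0 (n, m) := by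
        rw [exw, List.map_cons, H_cons, Finset.mul_sum]
        refine Finset.sum_congr rfl fun m hm => ?_
        simp only [hF0, hg0]
        rw [if_pos (Finset.mem_range.1 hm)]
        rfl
      rw [h2]
      refine hasSum_sum_of_ne_finset_zero fun m hm => ?_
      simp only [hF0]
      rw [if_neg (fun h => hm (Finset.mem_range.2 h))]
    have h0sum : Summable (fun n => f0 n * H (exw (y :: s)) n) := by
      have h2 := (hs_sum (ex w) x.1 (exw (y :: s)) (by
        have e1 : exw (cv x :: y :: s) = x.1 :: exw (y :: s) := rfl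
        rw [e1] at h
        exact h)).summable
      refine h2.congr fun n => ?_
      rw [hf0]
      simp only
      ring
    have hF0s : Summable F0 := by
      rw [summable_prod_of_nonneg hF00]
      refine ⟨fun n => (r0 n).summable, ?_⟩
      refine h0sum.congr fun n => ?_
      rw [(r0 n).tsum_eq]
    have hFs : Summable F := by
      refine Summable.of_norm_bounded hF0s fun p => ?_
      simp only [hF, hF0]
      split_ifs
      · rw [Real.norm_eq_abs, abs_mul]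
        exact mul_le_mul (hff _) (hgg _) (abs_nonneg _) (hf00 _)
      · simp
    have r1 : ∀ n, HasSum (fun m => F (n, m)) (f n * tr (y :: s) n) := by
      intro n
      have h2 : f n * tr (y :: s) n = ∑ m ∈ Finset.range n, F (n, m) := by
        rw [tr_cons, Finset.mul_sum]
        refine Finset.sum_congr rfl fun m hm => ?_
        simp only [hF, hg]
        rw [if_pos (Finset.mem_range.1 hm)]
      rw [h2]
      refine hasSum_sum_of_ne_finset_zero fun m hm => ?_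
      simp only [hF]
      rw [if_neg (fun h => hm (Finset.mem_range.2 h))]
    have h1' : HasSum (fun n => f n * tr (y :: s) n) V := by
      have e1 : (fun n => f n * tr (y :: s) n) =
          fun n => TS w (n + 1) * ((cv x).2 (n + 1) * (((n + 1 : ℕ) : ℝ) ^ (cv x).1)⁻¹ *
            tr (y :: s) n) := by
        funext n
        rw [hf]
        ring
      rw [e1]
      exact h1
    have hFV : HasSum F V := by
      have h2 := hFs.hasSum
      have h3 := h2.prod_fiberwise r1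
      rw [h3.unique h1'] at h2
      exact h2
    have hFV' : HasSum (fun p : ℕ × ℕ => F p.swap) V :=
      (Equiv.prodComm ℕ ℕ).hasSum_iff.2 hFV
    refine hFV'.prod_fiberwise fun m => ?_
    simp only [Prod.swap_prod_mk]
    have r2 : HasSum (fun k => F (k + (m + 1), m)) (TS (x :: w) (m + 1) * g m) := by
      have h2 : HasSum (fun k : ℕ => (sg x.2 ^ (k + (m + 1 + 1)) *
          (((k + (m + 1 + 1) : ℕ) : ℝ) ^ x.1)⁻¹ * TS w (k + (m + 1 + 1)))) (TS (x :: w) (m + 1)) := by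
        rw [TS_cons]
        exact (summableS hRA (m + 1)).hasSum
      have h3 := h2.mul_right (g m)
      have e2 : (fun k => F (k + (m + 1), m)) = fun i : ℕ =>
          sg x.2 ^ (i + (m + 1 + 1)) * (((i + (m + 1 + 1) : ℕ) : ℝ) ^ x.1)⁻¹ *
            TS w (i + (m + 1 + 1)) * g m := by
        funext k
        simp only [hF, hf, cv]
        have e3 : k + (m + 1) + 1 = k + (m + 1 + 1) := by omega
        rw [if_pos (by omega), e3]
        ring
      rw [e2]
      exact h3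
    have h4 : ∑ i ∈ Finset.range (m + 1), F (i, m) = 0 := by
      refine Finset.sum_eq_zero fun i hi => ?_
      simp only [hF]
      rw [if_neg (by have := Finset.mem_range.1 hi; omega)]
    have h5 := (hasSum_nat_add_iff' (f := fun n => F (n, m)) (g := TS (x :: w) (m + 1) * g m) (m + 1))
    rw [h4, sub_zero] at h5
    exact h5.1 r2

end Pool.Agent.U623.HS
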