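import Pool.Agent.U623.HS.Fin

/-! # Alternating multiple zeta values with a common last part: the theorem -/

set_option autoImplicit false

open Filter Topology

namespace Pool.Agent.U623.HS

open Pool.Agent.H447R2.MZ Pool.Agent.U623.HF

lemma den_commonA {ι : Type} (J : ℕ) (U : Finset ι) (q : ℕ → ι → ℚ) : ∃ D : ℕ, 1 ≤ D ∧
    ∀ j < J, ∀ u ∈ U, ∃ z : ℤ, (D : ℚ) * q j u = z := by
  classical
  refine ⟨∏ j ∈ Finset.range J, ∏ u ∈ U, (q j u).den, ?_, ?_⟩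
  · exact Nat.one_le_iff_ne_zero.2 (Finset.prod_ne_zero_iff.2 fun w _ =>
      Finset.prod_ne_zero_iff.2 fun i _ => Rat.den_nz _)
  · intro j hj u hu
    have h1 : (q j u).den ∣ ∏ j ∈ Finset.range J, ∏ u ∈ U, (q j u).den :=
      (Finset.dvd_prod_of_mem (fun u => (q j u).den) hu).trans
        (Finset.dvd_prod_of_mem (fun j => ∏ u ∈ U, (q j u).den) (Finset.mem_range.2 hj))
    obtain ⟨k, hk⟩ := h1
    refine ⟨k * (q j u).num, ?_⟩
    rw [hk]
    push_cast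
    have h2 : ((q j u).den : ℚ) * q j u = (q j u).num := by
      rw [mul_comm]
      exact Rat.mul_den_eq_num _
    calc ((q j u).den : ℚ) * (k : ℚ) * q j u
        = k * (((q j u).den : ℚ) * q j u) := by ring
      _ = _ := by rw [h2]

/-- the sum with nonnegative weights is positive -/
lemma Sm_pos (x : LW) (s : List LW) (hb : ∀ y ∈ x :: s, ∀ n, |y.2 n| ≤ 1)
    (h0 : ∀ y ∈ x :: s, ∀ n, 0 ≤ y.2 n) (h1 : ∀ y ∈ x :: s, ∀ M, ∃ n, M ≤ n ∧ 0 < y.2 n)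
    (h : Adm (exw (x :: s))) : 0 < Sm (x :: s) := by
  have hs := base_hs x s hb h
  obtain ⟨M, hM⟩ := tr_pos s (fun y hy => h0 y (by simp [hy])) (fun y hy => h1 y (by simp [hy]))
  obtain ⟨n, hn, hn0⟩ := h1 x (by simp) (M + 1)
  have hnn : ∀ m : ℕ, 0 ≤ x.2 (m + 1) * (((m + 1 : ℕ) : ℝ) ^ x.1)⁻¹ * tr s m := fun m =>
    mul_nonneg (mul_nonneg (h0 x (by simp) _) (by positivity))
      (tr_nonneg s (fun y hy => h0 y (by simp [hy])) m)
  refine lt_of_lt_of_le ?_ (le_hasSum hs (n - 1) fun j _ => hnn j)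
  have e : n - 1 + 1 = n := by omega
  rw [e]
  have hn1 : (0 : ℝ) < n := by exact_mod_cast (by omega : 0 < n)
  exact mul_pos (mul_pos hn0 (by positivity)) (hM (n - 1) (by omega))

lemma ex_reverse (u : List L) : ex u.reverse = (ex u).reverse := by
  simp [ex]

lemma pr_reverse (u : List L) : pr u.reverse = pr u := by
  unfold pr
  rw [List.map_reverse, List.prod_reverse]

/-- the general estimate -/
theorem gen (U : Finset (List L)) (hU : ∀ u ∈ U, Adm (ex u)) :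
    ∃ (q : ℕ → List L → ℚ) (K : ℝ) (J : ℕ), 0 < K ∧ ∀ c : List L → ℝ, (∃ u ∈ U, c u ≠ 0) →
      ∀ p : ℕ, ∃ j < J, ∑ u ∈ U, c u * sg (pr u) ^ p * (q j u : ℝ) ≠ 0 ∧
      ∀ H : ℝ, (∀ u ∈ U, |c u| ≤ H) → ∀ (y : LW) (s : List LW), (∀ x ∈ y :: s, ∀ n, 0 ≤ x.2 n) →
        (∀ x ∈ y :: s, ∀ n, x.2 n ≤ 1) → (∀ x ∈ y :: s, ∀ M, ∃ n, M ≤ n ∧ 0 < x.2 n) →
        (∀ x ∈ y :: s, 1 ≤ x.1) → ([] ∈ U → 2 ≤ y.1) →
        (∀ u ∈ U, ∀ n, y.2 n ≠ 0 → sg (pr u) ^ n = sg (pr u) ^ p) →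
        K * H ≤ |∑ u ∈ U, c u * sg (pr u) ^ p * (q j u : ℝ)| * (s.length + 1) →
        0 < Sm ((y.1 + (J + 1), y.2) :: s) ∧
        |∑ u ∈ U, c u * sg (pr u) ^ p * (q j u : ℝ)| / 2 * Sm ((y.1 + (J + 1), y.2) :: s) ≤
          |∑ u ∈ U, c u * Sm (u.map cv ++ y :: s)| := by
  classical
  obtain ⟨W, hW⟩ : ∃ W : Finset (List L), W = U.image List.reverse := ⟨_, rfl⟩
  have hWU : ∀ w ∈ W, w.reverse ∈ U := by
    intro w hw
    rw [hW, Finset.mem_image] at hw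
    obtain ⟨u, hu, rfl⟩ := hw
    rwa [List.reverse_reverse]
  have hWR : ∀ w ∈ W, RS w := by
    intro w hw
    have h1 := hU _ (hWU w hw)
    rw [ex_reverse] at h1
    exact h1
  have hsum : ∀ f : List L → ℝ, ∑ w ∈ W, f w = ∑ u ∈ U, f u.reverse := by
    intro f
    rw [hW, Finset.sum_image (fun a _ b _ h => List.reverse_injective h)]
  obtain ⟨q, K, J, hK, h⟩ := finalA FS W (fun w hw => (FS_Ex w (hWR w hw)).1) (indep W hWR)
  refine ⟨fun j u => q j u.reverse, K, J, hK, fun c hc p => ?_⟩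
  obtain ⟨j, hj, hA, hb⟩ := h (fun w => c w.reverse * sg (pr w) ^ p) (by
    obtain ⟨u, hu, hcu⟩ := hc
    refine ⟨u.reverse, by rw [hW]; exact Finset.mem_image_of_mem _ hu, ?_⟩
    rw [List.reverse_reverse]
    exact mul_ne_zero hcu (pow_ne_zero _ (sg_ne _)))
  rw [hsum] at hA hb
  simp only [List.reverse_reverse, pr_reverse] at hA hb
  refine ⟨j, hj, hA, fun H hH y s h0 h1 hinf hone hnil hp hlen => ?_⟩
  have habs : ∀ x ∈ y :: s, ∀ n, |x.2 n| ≤ 1 := by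
    intro x hx n
    rw [abs_of_nonneg (h0 x hx n)]
    exact h1 x hx n
  obtain ⟨x, hx⟩ : ∃ x : LW, x = (y.1 + (J + 1), y.2) := ⟨_, rfl⟩
  rw [← hx]
  have hx1 : ∀ v ∈ x :: s, ∃ v' ∈ y :: s, v'.2 = v.2 ∧ 1 ≤ v.1 := by
    intro v hv
    rw [List.mem_cons] at hv
    rcases hv with rfl | hv
    · exact ⟨y, by simp, by rw [hx], by rw [hx]; simp only; omega⟩
    · exact ⟨v, by simp [hv], rfl, hone v (by simp [hv])⟩
  have hadmx : Adm (exw (x :: s)) := by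
    refine ⟨fun a ha => ?_, fun a t hat => ?_⟩
    · rw [exw, List.mem_map] at ha
      obtain ⟨v, hv, rfl⟩ := ha
      obtain ⟨_, _, _, h2⟩ := hx1 v hv
      exact h2
    · rw [exw, List.map_cons, List.cons.injEq] at hat
      rw [← hat.1, hx]
      have := hone y (by simp)
      simp only
      omega
  have habsx : ∀ v ∈ x :: s, ∀ n, |v.2 n| ≤ 1 := by
    intro v hv n
    obtain ⟨v', hv', h2, -⟩ := hx1 v hv
    rw [← h2]
    exact habs v' hv' n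
  have hnnx : ∀ v ∈ x :: s, ∀ n, 0 ≤ v.2 n := by
    intro v hv n
    obtain ⟨v', hv', h2, -⟩ := hx1 v hv
    rw [← h2]
    exact h0 v' hv' n
  have hinfx : ∀ v ∈ x :: s, ∀ M, ∃ n, M ≤ n ∧ 0 < v.2 n := by
    intro v hv n
    obtain ⟨v', hv', h2, -⟩ := hx1 v hv
    rw [← h2]
    exact hinf v' hv' n
  refine ⟨Sm_pos x s habsx hnnx hinfx hadmx, ?_⟩
  have hadm : ∀ w ∈ W, Adm ((ex w).reverse ++ exw (y :: s)) := by
    intro w hw
    have h2 := hWR w hw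
    refine ⟨fun a ha => ?_, fun a t hat => ?_⟩
    · rw [List.mem_append] at ha
      rcases ha with ha | ha
      · exact h2.1 a ha
      · rw [exw, List.mem_map] at ha
        obtain ⟨v, hv, rfl⟩ := ha
        exact hone v hv
    · rcases hr : (ex w).reverse with _ | ⟨a', t'⟩
      · rw [hr, List.nil_append, exw, List.map_cons, List.cons.injEq] at hat
        rw [← hat.1]
        have h3 : w = [] := by
          have h4 : (ex w) = [] := by simpa using hr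
          simpa [ex] using h4
        refine hnil ?_
        have := hWU w hw
        rw [h3] at this
        simpa using this
      · rw [hr, List.cons_append, List.cons.injEq] at hat
        rw [← hat.1]
        exact h2.2 a' t' hr
  have hfin := hb H (fun w hw => by
    rw [abs_mul, sg_pow_abs, mul_one]
    exact hH _ (hWU w hw)) s.length
    (fun m => y.2 (m + 1) * (((m + 1 : ℕ) : ℝ) ^ y.1)⁻¹ * tr s m)
    (fun w => sg (pr w) ^ p * Sm (w.reverse.map cv ++ y :: s)) (Sm (x :: s))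
    (fun m => mul_nonneg (mul_nonneg (h0 y (by simp) _) (by positivity))
      (tr_nonneg s (fun v hv => h0 v (by simp [hv])) m))
    (fun m hm => by rw [tr_zero s m hm, mul_zero])
    (fun w hw => by
      have h3 := (hs_sumS w y s habs (hadm w hw)).mul_left (sg (pr w) ^ p)
      have h4 : (fun m : ℕ => FS w (m + 1) * (y.2 (m + 1) * (((m + 1 : ℕ) : ℝ) ^ y.1)⁻¹ * tr s m)) =
          fun m : ℕ => sg (pr w) ^ p * (TS w (m + 1) *
            (y.2 (m + 1) * (((m + 1 : ℕ) : ℝ) ^ y.1)⁻¹ * tr s m)) := by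
        funext m
        rw [FS]
        by_cases hy : y.2 (m + 1) = 0
        · rw [hy]
          ring
        · have h5 := hp _ (hWU w hw) (m + 1) hy
          rw [pr_reverse] at h5
          rw [h5]
          ring
      rw [h4]
      exact h3)
    (by
      have h3 := base_hs x s habsx hadmx
      have h4 : (fun m : ℕ => ((((m + 1 : ℕ) : ℝ)) ^ (J + 1))⁻¹ *
          (y.2 (m + 1) * (((m + 1 : ℕ) : ℝ) ^ y.1)⁻¹ * tr s m)) =
          fun m : ℕ => x.2 (m + 1) * (((m + 1 : ℕ) : ℝ) ^ x.1)⁻¹ * tr s m := by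
        funext m
        rw [hx]
        simp only
        rw [pow_add _ y.1 (J + 1), mul_inv]
        ring
      rw [h4]
      exact h3) hlen
  refine hfin.trans (le_of_eq ?_)
  rw [hsum]
  congr 1
  refine Finset.sum_congr rfl fun u _ => ?_
  rw [List.reverse_reverse, pr_reverse]
  have h5 := sg_pow_sq (pr u) p
  linear_combination (c u * Sm (u.map cv ++ y :: s)) * h5

/-- the sign condition: all the products of signs are `1`, or the weight of the largest variable of the last part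
is supported in one class modulo `2` -/
lemma sign_cond {U : Finset (List L)} {b : ℕ → ℝ}
    (h : (∀ u ∈ U, pr u = 1) ∨ ∃ p : ℕ, ∀ n, b n ≠ 0 → n % 2 = p % 2) :
    ∃ p < 2, ∀ u ∈ U, ∀ n, b n ≠ 0 → sg (pr u) ^ n = sg (pr u) ^ p := by
  rcases h with h | ⟨p, h⟩
  · refine ⟨0, by omega, fun u hu n _ => ?_⟩
    rw [h u hu, sg_one, one_pow, one_pow]
  · refine ⟨p % 2, Nat.mod_lt _ (by omega), fun u _ n hn => ?_⟩
    have h1 := h n hn
    have h2 : ∀ k : ℕ, sg (pr u) ^ k = sg (pr u) ^ (k % 2) := by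
      intro k
      conv_lhs => rw [← Nat.div_add_mod k 2]
      rw [pow_add, pow_mul, pow_two, sg_sq, one_pow, one_mul]
    rw [h2 n, h1]

/-- **Real coefficients.** -/
theorem mainReal (U : Finset (List L)) (hU : ∀ u ∈ U, Adm (ex u)) (c : List L → ℝ)
    (hc : ∃ u ∈ U, c u ≠ 0) : ∃ n0 : ℕ, ∀ (y : LW) (s : List LW), (∀ x ∈ y :: s, ∀ n, 0 ≤ x.2 n) →
        (∀ x ∈ y :: s, ∀ n, x.2 n ≤ 1) → (∀ x ∈ y :: s, ∀ M, ∃ n, M ≤ n ∧ 0 < x.2 n) →
        (∀ x ∈ y :: s, 1 ≤ x.1) → ([] ∈ U → 2 ≤ y.1) →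
        ((∀ u ∈ U, pr u = 1) ∨ ∃ p : ℕ, ∀ n, y.2 n ≠ 0 → n % 2 = p % 2) →
        n0 ≤ s.length + 1 → ∑ u ∈ U, c u * Sm (u.map cv ++ y :: s) ≠ 0 := by
  classical
  obtain ⟨q, K, J, hK, h⟩ := gen U hU
  choose j hj hA hb using fun p => h c hc p
  obtain ⟨H, hH⟩ : ∃ H : ℝ, ∀ u ∈ U, |c u| ≤ H :=
    ⟨∑ u ∈ U, |c u|, fun u hu => Finset.single_le_sum (f := fun u => |c u|)
      (fun _ _ => abs_nonneg _) hu⟩
  have hn : ∀ p, ∃ n0 : ℕ, K * H ≤ |∑ u ∈ U, c u * sg (pr u) ^ p * (q (j p) u : ℝ)| * n0 := by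
    intro p
    have hA0 : 0 < |∑ u ∈ U, c u * sg (pr u) ^ p * (q (j p) u : ℝ)| := abs_pos.2 (hA p)
    obtain ⟨n0, h0⟩ := exists_nat_ge (K * H / |∑ u ∈ U, c u * sg (pr u) ^ p * (q (j p) u : ℝ)|)
    refine ⟨n0, ?_⟩
    rw [div_le_iff₀ hA0] at h0
    linarith
  choose n0 hn0 using hn
  refine ⟨max (n0 0) (n0 1), fun y s h0 h1 hinf hone hnil hsg hlen => ?_⟩
  obtain ⟨p, hp2, hp⟩ := sign_cond hsg
  have hA0 : 0 < |∑ u ∈ U, c u * sg (pr u) ^ p * (q (j p) u : ℝ)| := abs_pos.2 (hA p)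
  have hle : n0 p ≤ s.length + 1 := by
    interval_cases p
    · exact (le_max_left _ _).trans hlen
    · exact (le_max_right _ _).trans hlen
  have hle' : (n0 p : ℝ) ≤ (s.length : ℝ) + 1 := by exact_mod_cast hle
  obtain ⟨g1, g2⟩ := hb p H hH y s h0 h1 hinf hone hnil hp
    ((hn0 p).trans (mul_le_mul_of_nonneg_left hle' hA0.le))
  intro hz
  rw [hz, abs_zero] at g2
  have : 0 < |∑ u ∈ U, c u * sg (pr u) ^ p * (q (j p) u : ℝ)| / 2 *
    Sm ((y.1 + (J + 1), y.2) :: s) := by positivity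
  linarith

/-- **Integer coefficients.** -/
theorem mainInt (U : Finset (List L)) (hU : ∀ u ∈ U, Adm (ex u)) :
    ∃ κ : ℝ, 0 < κ ∧ ∃ J : ℕ, 1 ≤ J ∧ ∀ (y : LW) (s : List LW), (∀ x ∈ y :: s, ∀ n, 0 ≤ x.2 n) →
        (∀ x ∈ y :: s, ∀ n, x.2 n ≤ 1) → (∀ x ∈ y :: s, ∀ M, ∃ n, M ≤ n ∧ 0 < x.2 n) →
        (∀ x ∈ y :: s, 1 ≤ x.1) → ([] ∈ U → 2 ≤ y.1) →
        ((∀ u ∈ U, pr u = 1) ∨ ∃ p : ℕ, ∀ n, y.2 n ≠ 0 → n % 2 = p % 2) →
        ∀ c : List L → ℤ, (∃ u ∈ U, c u ≠ 0) → (∀ u ∈ U, |(c u : ℝ)| ≤ κ * (s.length + 1)) →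
        0 < Sm ((y.1 + J, y.2) :: s) ∧
        κ * Sm ((y.1 + J, y.2) :: s) ≤ |∑ u ∈ U, (c u : ℝ) * Sm (u.map cv ++ y :: s)| := by
  classical
  obtain ⟨q, K, J, hK, h⟩ := gen U hU
  obtain ⟨D, hD1, hD⟩ := den_commonA J U q
  have hD0 : (0 : ℝ) < D := by exact_mod_cast hD1
  refine ⟨min (1 / (K * D)) (1 / (2 * D)), lt_min (by positivity) (by positivity), J + 1, by omega,
    fun y s h0 h1 hinf hone hnil hsg c hc hle => ?_⟩
  obtain ⟨p, -, hp⟩ := sign_cond hsg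
  obtain ⟨j, hj, hA, hb⟩ := h (fun u => (c u : ℝ)) (by
    obtain ⟨u, hu, hcu⟩ := hc
    exact ⟨u, hu, by exact_mod_cast hcu⟩) p
  obtain ⟨A, hAe⟩ : ∃ A : ℝ, A = ∑ u ∈ U, (c u : ℝ) * sg (pr u) ^ p * (q j u : ℝ) := ⟨_, rfl⟩
  rw [← hAe] at hA hb
  have hADz : ∃ z : ℤ, (D : ℝ) * A = z := by
    have hz : ∀ u, ∃ z : ℤ, u ∈ U → (D : ℚ) * q j u = z := by
      intro u
      by_cases hu : u ∈ U
      · obtain ⟨z, hz⟩ := hD j hj u hu
        exact ⟨z, fun _ => hz⟩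
      · exact ⟨0, fun h => absurd h hu⟩
    choose z hz using hz
    refine ⟨∑ u ∈ U, c u * ((pr u : ℤˣ) : ℤ) ^ p * z u, ?_⟩
    rw [hAe, Finset.mul_sum]
    push_cast
    refine Finset.sum_congr rfl fun u hu => ?_
    have h2 : (D : ℝ) * ((q j u : ℚ) : ℝ) = (z u : ℝ) := by exact_mod_cast hz u hu
    have h3 : sg (pr u) = (((pr u : ℤˣ) : ℤ) : ℝ) := rfl
    rw [← h3, ← h2]
    ring
  have hA1 : 1 / (D : ℝ) ≤ |A| := by
    obtain ⟨z, hz⟩ := hADz
    have hz0 : z ≠ 0 := by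
      intro h0
      rw [h0, Int.cast_zero] at hz
      rcases mul_eq_zero.1 hz with h | h
      · exact hD0.ne' h
      · exact hA h
    have hz1 : (1 : ℝ) ≤ |(z : ℝ)| := by exact_mod_cast Int.one_le_abs hz0
    rw [← hz, abs_mul, abs_of_pos hD0] at hz1
    rw [div_le_iff₀ hD0]
    linarith
  have hL0 : (0 : ℝ) < (s.length : ℝ) + 1 := by positivity
  obtain ⟨g1, g2⟩ := hb (1 / (K * D) * (s.length + 1)) (fun u hu => (hle u hu).trans
    (mul_le_mul_of_nonneg_right (min_le_left _ _) hL0.le)) y s h0 h1 hinf hone hnil hp (by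
      calc K * (1 / (K * D) * (s.length + 1)) = 1 / D * (s.length + 1) := by field_simp
        _ ≤ _ := mul_le_mul_of_nonneg_right hA1 hL0.le)
  refine ⟨g1, le_trans ?_ g2⟩
  refine mul_le_mul_of_nonneg_right ?_ g1.le
  refine (min_le_right _ _).trans ?_
  have : 1 / (2 * (D : ℝ)) = 1 / D / 2 := by field_simp
  rw [this]
  linarith

end Pool.Agent.U623.HS
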